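import Mathlib

set_option autoImplicit false

/-!
# The base family: combinatorics

Two triangulated flat discs (`h = 0, 1`) made of rings `j = 0, …, r` with three sides `s` of
`2 j + 1` positions `p`, glued along the rings `j = r`.  The parameter `a` shifts the corners.
-/

namespace Pool.Agent.R32.GT

open Set

@[ext] structure Nd where
  h : ℕ
  j : ℕ
  s : ℕ
  p : ℕ

def FF (a j p : ℕ) : ℕ := p + min 1 (a - j) + min 1 (p - min j a) + min 1 (p - (min j a + j))
def lo (a j q : ℕ) : ℕ :=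
  q + 1 - min 1 (a - j) - min 1 (q - min (j+1) a) - min 1 (q - (min (j+1) a + j + 1))
def hi (a j q : ℕ) : ℕ :=
  q + 2 - min 1 (a - j) - min 1 (q + 1 - min (j+1) a) - min 1 (q + 1 - (min (j+1) a + j + 1))

lemma FF_E {a j p : ℕ} (h : j < a) : FF a j p = p + 1 + min 1 (p - j) + min 1 (p - (j + j)) := by
  unfold FF; rw [min_eq_left h.le, show min 1 (a - j) = 1 by omega]
lemma FF_F {a j p : ℕ} (h : a ≤ j) : FF a j p = p + min 1 (p - a) + min 1 (p - (a + j)) := by
  unfold FF; rw [min_eq_right h, show min 1 (a - j) = 0 by omega]; rfl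
lemma lo_E {a j q : ℕ} (h : j < a) :
    lo a j q = q - min 1 (q - (j + 1)) - min 1 (q - (j + 1 + j + 1)) := by
  unfold lo; rw [min_eq_left (show j + 1 ≤ a from h), show min 1 (a - j) = 1 by omega]; rfl
lemma lo_F {a j q : ℕ} (h : a ≤ j) :
    lo a j q = q + 1 - min 1 (q - a) - min 1 (q - (a + j + 1)) := by
  unfold lo; rw [min_eq_right (show a ≤ j + 1 by omega), show min 1 (a - j) = 0 by omega]; rfl
lemma hi_E {a j q : ℕ} (h : j < a) :
    hi a j q = q + 1 - min 1 (q - j) - min 1 (q - (j + 1 + j)) := by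
  unfold hi; rw [min_eq_left (show j + 1 ≤ a from h), show min 1 (a - j) = 1 by omega]
  omega
lemma hi_F {a j q : ℕ} (h : a ≤ j) :
    hi a j q = q + 2 - min 1 (q + 1 - a) - min 1 (q - (a + j)) := by
  unfold hi; rw [min_eq_right (show a ≤ j + 1 by omega), show min 1 (a - j) = 0 by omega]
  omega

lemma key1 {a j p q : ℕ} (hp : p ≤ 2*j) (hq : q ≤ 2*j+2) :
    (FF a j p ≤ q + 1 ∧ q + 1 ≤ FF a j (p+1)) ↔ (lo a j q ≤ p + 1 ∧ p + 1 ≤ hi a j q) := by
  rcases lt_or_ge j a with h | h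
  · rw [FF_E h, FF_E h, lo_E h, hi_E h]
    constructor
    · rintro ⟨h1, h2⟩; constructor <;> omega
    · rintro ⟨h1, h2⟩; constructor <;> omega
  · rw [FF_F h, FF_F h, lo_F h, hi_F h]
    constructor
    · rintro ⟨h1, h2⟩; constructor <;> omega
    · rintro ⟨h1, h2⟩; constructor <;> omega

lemma key2 {a j p q : ℕ} (hp : p ≤ 2*j) :
    (q = 2*j+2 ∧ FF a j p = 0) ↔ (p = 0 ∧ q = 2*j+2 ∧ lo a j q ≤ 2*j+2 ∧ 2*j+2 ≤ hi a j q) := by
  rcases lt_or_ge j a with h | h
  · rw [FF_E h, lo_E h, hi_E h]; omega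
  · rw [FF_F h, lo_F h, hi_F h]; omega

lemma key3 {a j p q : ℕ} (hp : p ≤ 2*j) :
    (q = 0 ∧ FF a j p ≤ 2*j+4 ∧ 2*j+4 ≤ FF a j (p+1)) ↔ (p = 2 * j ∧ q = 0 ∧ lo a j q = 0) := by
  rcases lt_or_ge j a with h | h
  · rw [FF_E h, FF_E h, lo_E h]; omega
  · rw [FF_F h, FF_F h, lo_F h]; omega

lemma FF_le {a j p : ℕ} (hp : p ≤ 2*j) : FF a j (p+1) ≤ 2*j+4 := by
  rcases lt_or_ge j a with h | h
  · rw [FF_E h]; omega
  · rw [FF_F h]; omega

lemma hi_le {a j q : ℕ} (hq : q ≤ 2*j+2) : hi a j q ≤ 2*j+2 := by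
  rcases lt_or_ge j a with h | h
  · rw [hi_E h]; omega
  · rw [hi_F h]; omega

/-- number of upward neighbours -/
lemma FF_card {a j p : ℕ} (hp : p ≤ 2*j) : FF a j (p+1) + 1 - FF a j p +
    (if p = min j a then 0 else 1) + (if p = min j a + j then 0 else 1) = 4 := by
  rcases lt_or_ge j a with h | h
  · rw [FF_E h, FF_E h, min_eq_left h.le]
    split_ifs <;> omega
  · rw [FF_F h, FF_F h, min_eq_right h]
    split_ifs <;> omega

/-- number of downward neighbours -/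
lemma lo_card {a j q : ℕ} (hq : q ≤ 2*j+2) : hi a j q + 1 - lo a j q +
    (if q = min (j+1) a then 1 else 0) + (if q = min (j+1) a + j + 1 then 1 else 0) = 2 := by
  rcases lt_or_ge j a with h | h
  · rw [lo_E h, hi_E h, min_eq_left (show j + 1 ≤ a from h)]
    split_ifs <;> omega
  · rw [lo_F h, hi_F h, min_eq_right (show a ≤ j + 1 by omega)]
    split_ifs <;> omega

def node (j s Q : ℕ) : ℕ × ℕ :=
  if Q = 0 then ((s+2)%3, 2*j) else if Q ≤ 2*j+1 then (s, Q-1) else ((s+1)%3, 0)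

lemma node_inj {j s Q Q' : ℕ} (hs : s < 3) (hQ : Q ≤ 2*j+2) (hQ' : Q' ≤ 2*j+2)
    (h : node j s Q = node j s Q') : Q = Q' := by
  unfold node at h
  split_ifs at h <;> simp only [Prod.mk.injEq] at h <;> omega

lemma node_ok {j s Q : ℕ} (hs : s < 3) (hQ : Q ≤ 2*j+2) :
    (node j s Q).1 < 3 ∧ (node j s Q).2 ≤ 2*j := by
  unfold node
  split_ifs <;> simp only <;> constructor <;> omega

/-- inverse of the shift -/
lemma node_shift {j s p s' p' : ℕ} (hs : s < 3) (hp : p ≤ 2*j) (hs' : s' < 3) (hp' : p' ≤ 2*j) :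
    node j s (p+2) = (s', p') ↔ node j s' p' = (s, p) := by
  have e1 : node j s (p+2) = if p + 2 ≤ 2*j+1 then (s, p+1) else ((s+1)%3, 0) := by
    unfold node; rw [if_neg (by omega)]; rfl
  have e2 : node j s' p' = if p' = 0 then ((s'+2)%3, 2*j) else (s', p' - 1) := by
    unfold node
    by_cases h : p' = 0
    · rw [if_pos h, if_pos h]
    · rw [if_neg h, if_neg h, if_pos (by omega)]
  rw [e1, e2]
  by_cases h1 : p + 2 ≤ 2*j+1
  · rw [if_pos h1]
    by_cases h2 : p' = 0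
    · rw [if_pos h2, Prod.mk.injEq, Prod.mk.injEq]
      constructor
      · rintro ⟨-, h⟩; omega
      · rintro ⟨-, h⟩; omega
    · rw [if_neg h2, Prod.mk.injEq, Prod.mk.injEq]
      constructor
      · rintro ⟨h, h'⟩; exact ⟨h.symm, by omega⟩
      · rintro ⟨h, h'⟩; exact ⟨h.symm, by omega⟩
  · rw [if_neg h1]
    by_cases h2 : p' = 0
    · rw [if_pos h2, Prod.mk.injEq, Prod.mk.injEq]
      constructor
      · rintro ⟨h, h'⟩; constructor <;> omega
      · rintro ⟨h, h'⟩; constructor <;> omega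
    · rw [if_neg h2, Prod.mk.injEq, Prod.mk.injEq]
      constructor
      · rintro ⟨-, h⟩; omega
      · rintro ⟨-, h⟩; omega

/-- the vertices -/
def OK (r : ℕ) (v : Nd) : Prop := v.h < 2 ∧ v.j ≤ r ∧ v.s < 3 ∧ v.p ≤ 2 * v.j

/-- generating steps of the triangulation with parameter `a` -/
def StL (u v : Nd) : Prop := u.h = v.h ∧ u.j = v.j ∧ (v.s, v.p) = node u.j u.s (u.p+2)
def StU (a : ℕ) (u v : Nd) : Prop := u.h = v.h ∧ v.j = u.j + 1 ∧
  ∃ Q, FF a u.j u.p ≤ Q ∧ Q ≤ FF a u.j (u.p+1) ∧ (v.s, v.p) = node v.j u.s Q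
def StX (r : ℕ) (u v : Nd) : Prop := u.h = 0 ∧ v.h = 1 ∧ u.j = r ∧ v.j = r ∧
  ((v.s, v.p) = (u.s, u.p) ∨ (v.s, v.p) = node r u.s (u.p+2))

def St (a r : ℕ) (u v : Nd) : Prop := StL u v ∨ StU a u v ∨ StX r u v

/-- the four parts of the neighbourhood -/
def SL (u : Nd) : Set Nd :=
  {⟨u.h, u.j, (node u.j u.s (u.p+2)).1, (node u.j u.s (u.p+2)).2⟩,
   ⟨u.h, u.j, (node u.j u.s u.p).1, (node u.j u.s u.p).2⟩}
def SU (a r : ℕ) (u : Nd) : Set Nd :=
  if u.j < r then (fun Q => ⟨u.h, u.j+1, (node (u.j+1) u.s Q).1, (node (u.j+1) u.s Q).2⟩) ''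
    (Icc (FF a u.j u.p) (FF a u.j (u.p+1))) else ∅
def SD (a : ℕ) (u : Nd) : Set Nd :=
  if 1 ≤ u.j then (fun Q => ⟨u.h, u.j-1, (node (u.j-1) u.s Q).1, (node (u.j-1) u.s Q).2⟩) ''
    (Icc (lo a (u.j-1) u.p) (hi a (u.j-1) u.p)) else ∅
def SX (r : ℕ) (u : Nd) : Set Nd :=
  if u.j = r then {⟨1 - u.h, r, u.s, u.p⟩,
    if u.h = 0 then ⟨1, r, (node r u.s (u.p+2)).1, (node r u.s (u.p+2)).2⟩
    else ⟨0, r, (node r u.s u.p).1, (node r u.s u.p).2⟩} else ∅

lemma mem_SL {r : ℕ} {u : Nd} (hu : OK r u) (w : Nd) :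
    w ∈ SL u ↔ OK r w ∧ (StL u w ∨ StL w u) := by
  obtain ⟨h, j, s, p⟩ := u
  obtain ⟨h', j', s', p'⟩ := w
  obtain ⟨h1, h2, h3, h4⟩ := hu
  simp only [OK, StL, SL, mem_insert_iff, mem_singleton_iff, Nd.mk.injEq] at *
  have n1 := node_ok (j := j) (s := s) (Q := p+2) h3 (by omega)
  have n2 := node_ok (j := j) (s := s) (Q := p) h3 (by omega)
  constructor
  · rintro (⟨rfl, rfl, rfl, rfl⟩ | ⟨rfl, rfl, rfl, rfl⟩)
    · exact ⟨⟨h1, h2, n1.1, n1.2⟩, Or.inl ⟨rfl, rfl, rfl⟩⟩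
    · refine ⟨⟨h1, h2, n2.1, n2.2⟩, Or.inr ⟨rfl, rfl, ?_⟩⟩
      exact ((node_shift n2.1 n2.2 h3 h4).2 rfl).symm
  · rintro ⟨⟨g1, g2, g3, g4⟩, (⟨rfl, rfl, e⟩ | ⟨rfl, rfl, e⟩)⟩
    · left
      rw [← e]
      exact ⟨rfl, rfl, rfl, rfl⟩
    · right
      have := (node_shift g3 g4 h3 h4).1 e.symm
      rw [this]
      exact ⟨rfl, rfl, rfl, rfl⟩

lemma mem_SU {a r : ℕ} {u : Nd} (hu : OK r u) (w : Nd) :
    w ∈ SU a r u ↔ OK r w ∧ StU a u w := by
  obtain ⟨h, j, s, p⟩ := u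
  obtain ⟨h', j', s', p'⟩ := w
  obtain ⟨h1, h2, h3, h4⟩ := hu
  simp only [OK, StU, SU] at *
  by_cases hj : j < r
  · rw [if_pos hj]
    simp only [mem_image, mem_Icc, Nd.mk.injEq]
    constructor
    · rintro ⟨Q, ⟨q1, q2⟩, rfl, rfl, rfl, rfl⟩
      have n1 := node_ok (j := j+1) (s := s) (Q := Q) h3 (by
        have := FF_le (a := a) h4; omega)
      exact ⟨⟨h1, hj, n1.1, by omega⟩, rfl, rfl, Q, q1, q2, rfl⟩
    · rintro ⟨⟨g1, g2, g3, g4⟩, rfl, rfl, Q, q1, q2, e⟩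
      refine ⟨Q, ⟨q1, q2⟩, rfl, rfl, ?_, ?_⟩
      · exact (congrArg Prod.fst e).symm
      · exact (congrArg Prod.snd e).symm
  · rw [if_neg hj]
    simp only [mem_empty_iff_false, false_iff]
    rintro ⟨⟨g1, g2, g3, g4⟩, e1, e2, -⟩
    omega

/-- up and down relations agree -/
lemma updown {a j s p s' q : ℕ} (hs : s < 3) (hp : p ≤ 2*j) (hs' : s' < 3) (hq : q ≤ 2*j+2) :
    (∃ Q, FF a j p ≤ Q ∧ Q ≤ FF a j (p+1) ∧ (s', q) = node (j+1) s Q) ↔
    (∃ P, lo a j q ≤ P ∧ P ≤ hi a j q ∧ (s, p) = node j s' P) := by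
  constructor
  · rintro ⟨Q, h1, h2, h3⟩
    unfold node at h3
    split_ifs at h3 with c1 c2 <;> simp only [Prod.mk.injEq] at h3
    · have h4 := (key2 (a := a) (q := q) hp).1 ⟨by omega, by omega⟩
      refine ⟨2*j+2, h4.2.2.1, h4.2.2.2, ?_⟩
      unfold node
      rw [if_neg (by omega), if_neg (by omega), Prod.mk.injEq]
      omega
    · have h4 := (key1 (a := a) hp hq).1 ⟨by omega, by omega⟩
      refine ⟨p+1, h4.1, h4.2, ?_⟩
      unfold node
      rw [if_neg (by omega), if_pos (by omega), Prod.mk.injEq]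
      omega
    · have hQ : Q = 2*j+4 := by have := FF_le (a := a) hp; omega
      subst hQ
      have h4 := (key3 (a := a) (q := q) hp).1 ⟨by omega, h1, h2⟩
      refine ⟨0, by omega, by omega, ?_⟩
      unfold node
      rw [if_pos rfl, Prod.mk.injEq]
      omega
  · rintro ⟨P, h1, h2, h3⟩
    unfold node at h3
    split_ifs at h3 with c1 c2 <;> simp only [Prod.mk.injEq] at h3
    · have hlo : lo a j q = 0 := by omega
      have hq0 : q = 0 := by
        rcases lt_or_ge j a with h | h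
        · rw [lo_E h] at hlo; omega
        · rw [lo_F h] at hlo; omega
      have h4 := (key3 (a := a) (q := q) hp).2 ⟨by omega, hq0, hlo⟩
      refine ⟨2*j+4, h4.2.1, h4.2.2, ?_⟩
      unfold node
      rw [if_neg (by omega), if_neg (by omega), Prod.mk.injEq]
      omega
    · have h4 := (key1 (a := a) hp hq).2 ⟨by omega, by omega⟩
      refine ⟨q+1, h4.1, h4.2, ?_⟩
      unfold node
      rw [if_neg (by omega), if_pos (by omega), Prod.mk.injEq]
      omega
    · have hP : P = 2*j+2 := by have := hi_le (a := a) hq; omega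
      subst hP
      have hq1 : q = 2*j+2 := by
        rcases lt_or_ge j a with h | h
        · rw [hi_E h] at h2; omega
        · rw [hi_F h] at h2; omega
      have h4 := (key2 (a := a) (q := q) hp).2 ⟨by omega, hq1, h1, h2⟩
      refine ⟨0, by omega, by omega, ?_⟩
      unfold node
      rw [if_pos rfl, Prod.mk.injEq]
      omega

lemma mem_SD {a r : ℕ} {u : Nd} (hu : OK r u) (w : Nd) :
    w ∈ SD a u ↔ OK r w ∧ StU a w u := by
  obtain ⟨h, j, s, p⟩ := u
  obtain ⟨h', j', s', p'⟩ := w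
  obtain ⟨h1, h2, h3, h4⟩ := hu
  simp only [OK, StU, SD] at *
  by_cases hj : 1 ≤ j
  · rw [if_pos hj]
    obtain ⟨i, rfl⟩ : ∃ i, j = i + 1 := ⟨j - 1, by omega⟩
    simp only [mem_image, mem_Icc, Nd.mk.injEq, Nat.add_sub_cancel]
    constructor
    · rintro ⟨P, ⟨q1, q2⟩, rfl, rfl, rfl, rfl⟩
      have n1 := node_ok (j := i) (s := s) (Q := P) h3 (by
        have := hi_le (a := a) (j := i) (q := p) (by omega); omega)
      refine ⟨⟨h1, by omega, n1.1, n1.2⟩, rfl, rfl, ?_⟩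
      exact (updown n1.1 n1.2 h3 (by omega)).2 ⟨P, q1, q2, rfl⟩
    · rintro ⟨⟨g1, g2, g3, g4⟩, rfl, e, Q, q1, q2, e3⟩
      have e' : j' = i := by omega
      subst e'
      obtain ⟨P, p1, p2, e4⟩ := (updown (a := a) g3 g4 h3 (by omega)).1 ⟨Q, q1, q2, e3⟩
      refine ⟨P, ⟨p1, p2⟩, rfl, rfl, ?_, ?_⟩
      · exact (congrArg Prod.fst e4).symm
      · exact (congrArg Prod.snd e4).symm
  · rw [if_neg hj]
    simp only [mem_empty_iff_false, false_iff]
    rintro ⟨⟨g1, g2, g3, g4⟩, e1, e2, -⟩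
    omega

lemma mem_SX {r : ℕ} {u : Nd} (hu : OK r u) (w : Nd) :
    w ∈ SX r u ↔ OK r w ∧ (StX r u w ∨ StX r w u) := by
  obtain ⟨h, j, s, p⟩ := u
  obtain ⟨h', j', s', p'⟩ := w
  obtain ⟨h1, h2, h3, h4⟩ := hu
  simp only [OK, StX, SX] at *
  by_cases hj : j = r
  · rw [if_pos hj]
    subst hj
    have n1 := node_ok (j := j) (s := s) (Q := p+2) h3 (by omega)
    have n2 := node_ok (j := j) (s := s) (Q := p) h3 (by omega)
    by_cases hh : h = 0
    · subst hh
      simp only [if_true, mem_insert_iff, mem_singleton_iff, Nd.mk.injEq, Nat.sub_zero]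
      constructor
      · rintro (⟨rfl, rfl, rfl, rfl⟩ | ⟨rfl, rfl, rfl, rfl⟩)
        · refine ⟨⟨by omega, le_rfl, h3, h4⟩, Or.inl ?_⟩; simp
        · refine ⟨⟨by omega, le_rfl, n1.1, n1.2⟩, Or.inl ?_⟩; simp
      · rintro ⟨⟨g1, g2, g3, g4⟩, (⟨-, rfl, -, rfl, (e | e)⟩ | ⟨-, h0, -, -, -⟩)⟩
        · left
          rw [Prod.mk.injEq] at e
          exact ⟨rfl, rfl, e.1, e.2⟩
        · right
          exact ⟨rfl, rfl, congrArg Prod.fst e, congrArg Prod.snd e⟩
        · omega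
    · have hh1 : h = 1 := by omega
      subst hh1
      simp only [if_neg hh, mem_insert_iff, mem_singleton_iff, Nd.mk.injEq, Nat.sub_self]
      constructor
      · rintro (⟨rfl, rfl, rfl, rfl⟩ | ⟨rfl, rfl, rfl, rfl⟩)
        · refine ⟨⟨by omega, le_rfl, h3, h4⟩, Or.inr ?_⟩; simp
        · refine ⟨⟨by omega, le_rfl, n2.1, n2.2⟩, Or.inr ?_⟩
          have := (node_shift n2.1 n2.2 h3 h4).2 rfl
          simp [this]
      · rintro ⟨⟨g1, g2, g3, g4⟩, (⟨h0, -, -, -, -⟩ | ⟨rfl, -, rfl, -, (e | e)⟩)⟩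
        · omega
        · left
          rw [Prod.mk.injEq] at e
          exact ⟨rfl, rfl, e.1.symm, e.2.symm⟩
        · right
          have := (node_shift g3 g4 h3 h4).1 e.symm
          rw [this]
          exact ⟨rfl, rfl, rfl, rfl⟩
  · rw [if_neg hj]
    simp only [mem_empty_iff_false, false_iff]
    rintro ⟨⟨g1, g2, g3, g4⟩, (⟨_, _, e, _, _⟩ | ⟨_, _, _, e, _⟩)⟩ <;> omega

lemma ncard_SL {r : ℕ} {u : Nd} (hu : OK r u) : (SL u).ncard = 2 := by
  obtain ⟨h, j, s, p⟩ := u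
  obtain ⟨h1, h2, h3, h4⟩ := hu
  simp only at h1 h2 h3 h4
  unfold SL
  apply Set.ncard_pair
  intro e
  simp only [Nd.mk.injEq] at e
  have := node_inj (j := j) (s := s) (Q := p+2) (Q' := p) h3 (by omega) (by omega)
    (Prod.ext e.2.2.1 e.2.2.2)
  omega

lemma ncard_SU {a r : ℕ} {u : Nd} (hu : OK r u) : (SU a r u).ncard =
    if u.j < r then FF a u.j (u.p+1) + 1 - FF a u.j u.p else 0 := by
  obtain ⟨h, j, s, p⟩ := u
  obtain ⟨h1, h2, h3, h4⟩ := hu
  simp only at h1 h2 h3 h4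
  unfold SU
  simp only
  by_cases hj : j < r
  · rw [if_pos hj, if_pos hj, Set.InjOn.ncard_image, Set.ncard_eq_toFinset_card',
      Set.toFinset_Icc, Nat.card_Icc]
    intro Q hQ Q' hQ' e
    simp only [Nd.mk.injEq] at e
    have := FF_le (a := a) h4
    exact node_inj h3 (by have := hQ.2; omega) (by have := hQ'.2; omega)
      (Prod.ext e.2.2.1 e.2.2.2)
  · rw [if_neg hj, if_neg hj, Set.ncard_empty]

lemma ncard_SD {a r : ℕ} {u : Nd} (hu : OK r u) : (SD a u).ncard =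
    if 1 ≤ u.j then hi a (u.j-1) u.p + 1 - lo a (u.j-1) u.p else 0 := by
  obtain ⟨h, j, s, p⟩ := u
  obtain ⟨h1, h2, h3, h4⟩ := hu
  simp only at h1 h2 h3 h4
  unfold SD
  simp only
  by_cases hj : 1 ≤ j
  · rw [if_pos hj, if_pos hj, Set.InjOn.ncard_image, Set.ncard_eq_toFinset_card',
      Set.toFinset_Icc, Nat.card_Icc]
    intro Q hQ Q' hQ' e
    simp only [Nd.mk.injEq] at e
    have := hi_le (a := a) (j := j-1) (q := p) (by omega)
    exact node_inj h3 (by have := hQ.2; omega) (by have := hQ'.2; omega)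
      (Prod.ext e.2.2.1 e.2.2.2)
  · rw [if_neg hj, if_neg hj, Set.ncard_empty]

lemma node_ne {j s p : ℕ} (hs : s < 3) (hp : p ≤ 2*j) :
    node j s (p+2) ≠ (s, p) ∧ node j s p ≠ (s, p) := by
  unfold node
  constructor <;> split_ifs <;> simp only [ne_eq, Prod.mk.injEq] <;> omega

lemma ncard_SX {r : ℕ} {u : Nd} (hu : OK r u) : (SX r u).ncard = if u.j = r then 2 else 0 := by
  obtain ⟨h, j, s, p⟩ := u
  obtain ⟨h1, h2, h3, h4⟩ := hu
  simp only at h1 h2 h3 h4
  unfold SX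
  simp only
  by_cases hj : j = r
  · subst hj
    rw [if_pos rfl, if_pos rfl]
    apply Set.ncard_pair
    have n1 := node_ne (j := j) h3 h4
    split_ifs
    · intro e
      simp only [Nd.mk.injEq] at e
      exact n1.1 (Prod.ext e.2.2.1.symm e.2.2.2.symm)
    · intro e
      simp only [Nd.mk.injEq] at e
      exact n1.2 (Prod.ext e.2.2.1.symm e.2.2.2.symm)
  · rw [if_neg hj, if_neg hj, Set.ncard_empty]

/-- the neighbourhood in the triangulation -/
def NT (a r : ℕ) (u : Nd) : Set Nd := {w | OK r w ∧ (St a r u w ∨ St a r w u)}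

lemma NT_eq {a r : ℕ} {u : Nd} (hu : OK r u) :
    NT a r u = (SL u ∪ SX r u) ∪ (SU a r u ∪ SD a u) := by
  ext w
  simp only [mem_union, mem_SL hu, mem_SU hu, mem_SD hu, mem_SX hu, NT, St, mem_ofPred_eq]
  tauto

lemma SL_fin (u : Nd) : (SL u).Finite := (Set.finite_singleton _).insert _
lemma SX_fin (r : ℕ) (u : Nd) : (SX r u).Finite := by
  unfold SX; split_ifs
  · exact (Set.finite_singleton _).insert _
  · exact (Set.finite_singleton _).insert _
  · exact Set.finite_empty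
lemma SU_fin (a r : ℕ) (u : Nd) : (SU a r u).Finite := by
  unfold SU; split_ifs
  · exact (Set.finite_Icc _ _).image _
  · exact Set.finite_empty
lemma SD_fin (a : ℕ) (u : Nd) : (SD a u).Finite := by
  unfold SD; split_ifs
  · exact (Set.finite_Icc _ _).image _
  · exact Set.finite_empty

lemma ncard_NT {a r : ℕ} {u : Nd} (hu : OK r u) : (NT a r u).ncard =
    (2 + (if u.j = r then 2 else 0)) + ((if u.j < r then FF a u.j (u.p+1) + 1 - FF a u.j u.p else 0)
      + (if 1 ≤ u.j then hi a (u.j-1) u.p + 1 - lo a (u.j-1) u.p else 0)) := by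
  rw [NT_eq hu, Set.ncard_union_eq _ ((SL_fin u).union (SX_fin r u))
    ((SU_fin a r u).union (SD_fin a u)), Set.ncard_union_eq _ (SL_fin u) (SX_fin r u),
    Set.ncard_union_eq _ (SU_fin a r u) (SD_fin a u), ncard_SL hu, ncard_SX hu, ncard_SU hu,
    ncard_SD hu]
  · rw [Set.disjoint_left]
    intro w hw hw'
    have h1 := ((mem_SU hu w).1 hw).2.2.1
    have h2 := ((mem_SD hu w).1 hw').2.2.1
    omega
  · rw [Set.disjoint_left]
    intro w hw hw'
    have h1 : u.h = w.h := by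
      rcases ((mem_SL hu w).1 hw).2 with h | h
      · exact h.1
      · exact h.1.symm
    rcases ((mem_SX hu w).1 hw').2 with h | h
    · have := h.1; have := h.2.1; omega
    · have := h.1; have := h.2.1; omega
  · rw [Set.disjoint_left]
    intro w hw hw'
    have h1 : u.j = w.j := by
      rcases hw with hw | hw
      · rcases ((mem_SL hu w).1 hw).2 with h | h
        · exact h.2.1
        · exact h.2.1.symm
      · rcases ((mem_SX hu w).1 hw).2 with h | h
        · exact h.2.2.1.trans h.2.2.2.1.symm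
        · exact h.2.2.2.1.trans h.2.2.1.symm
    rcases hw' with hw' | hw'
    · have := ((mem_SU hu w).1 hw').2.2.1; omega
    · have := ((mem_SD hu w).1 hw').2.2.1; omega

/-- all degrees of the triangulation -/
lemma deg_NT {a r : ℕ} (har : a < r) {u : Nd} (hu : OK r u) : (NT a r u).ncard =
    if u.j = r ∧ (u.p = a ∨ u.p = a + r) then 5 else 6 := by
  rw [ncard_NT hu]
  obtain ⟨h, j, s, p⟩ := u
  obtain ⟨h1, h2, h3, h4⟩ := hu
  simp only at h1 h2 h3 h4 ⊢
  rcases Nat.eq_zero_or_pos j with h0 | h0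
  · subst h0
    have f1 := FF_card (a := a) (j := 0) (p := p) h4
    rw [if_neg (show ¬ (0 = r) by omega), if_pos (show 0 < r by omega),
      if_neg (show ¬ (1 ≤ 0) by omega), if_neg (by omega)]
    have hp0 : p = 0 := by omega
    subst hp0
    rw [Nat.zero_min, if_pos rfl] at f1
    omega
  · obtain ⟨i, rfl⟩ : ∃ i, j = i + 1 := ⟨j - 1, by omega⟩
    have f2 := lo_card (a := a) (j := i) (q := p) (by omega)
    rw [Nat.add_sub_cancel, if_pos (show 1 ≤ i + 1 by omega)]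
    by_cases hjr : i + 1 = r
    · subst hjr
      rw [if_pos rfl, if_neg (lt_irrefl _)]
      rw [min_eq_right har.le] at f2
      split_ifs with c1
      · obtain ⟨-, c1⟩ := c1
        split_ifs at f2 <;> omega
      · split_ifs at f2 <;> omega
    · have f1 := FF_card (a := a) (j := i+1) (p := p) h4
      rw [if_neg hjr, if_pos (show i + 1 < r by omega), if_neg (by omega)]
      split_ifs at f1 f2 <;> omega

end Pool.Agent.R32.GT
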