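import Pool.Agent.R32.GT.BaseGeo

set_option autoImplicit false

/-!
# The base family: no crossings
-/

namespace Pool.Agent.R32.GT

open Set

lemma Lat.pt {r s h j P : ℕ} {u v : Nd} (hL : Lat r s h j P u v) {z : ℝ × ℝ}
    (hz : z ∈ segment ℝ (qq r u) (qq r v)) :
    ∃ τ : ℝ, (TT j (RR r h j) P : ℝ) ≤ τ ∧ τ ≤ (TT j (RR r h j) (P+1) : ℝ) ∧
      z = Phi s (RR r h j : ℝ) τ := by
  obtain ⟨hs, hh, hj, hP, rfl, rfl⟩ := hL
  rw [qq_nd hs (by omega), qq_nd hs (by omega)] at hz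
  obtain ⟨l, h0, h1, rfl⟩ := Phi_seg hz
  have hlt : (TT j (RR r h j) P : ℝ) < (TT j (RR r h j) (P+1) : ℝ) := by
    exact_mod_cast TT_lt (RR_pos (h := h) hj).1 (Nat.lt_succ_self P) (by omega)
  refine ⟨(1-l) * (TT j (RR r h j) P : ℝ) + l * (TT j (RR r h j) (P+1) : ℝ), ?_, ?_, ?_⟩
  · nlinarith
  · nlinarith
  · congr 1; ring

lemma Rad.pt {a r s R P Q : ℕ} {u v : Nd} (hR : Rad a r s R P Q u v) {z : ℝ × ℝ}
    (hz : z ∈ segment ℝ (qq r u) (qq r v)) :
    ∃ l : ℝ, 0 ≤ l ∧ l ≤ 1 ∧ z = Phi s ((R : ℝ) + l)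
      ((1-l) * (TT (jr r R) R P : ℝ) + l * (TT (jr r (R+1)) (R+1) Q : ℝ)) ∧
      (l = 0 → z = qq r u) ∧ (l = 1 → z = qq r v) := by
  obtain ⟨hs, -, -, -, -, h1, h2⟩ := hR.coord
  rw [h1, h2] at hz
  obtain ⟨l, h0, h1', rfl⟩ := Phi_seg hz
  have e : (1-l)*(R:ℝ) + l * ((R+1:ℕ):ℝ) = R + l := by push_cast; ring
  rw [e]
  refine ⟨l, h0, h1', rfl, ?_, ?_⟩
  · rintro rfl; rw [h1]; congr 1 <;> ring
  · rintro rfl; rw [h2]; congr 1
    · push_cast; ring
    · ring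

lemma nd_ok {r h j s P : ℕ} (hh : h < 2) (hj : j ≤ r) (hs : s < 3) (hP : P ≤ 2*j+1) :
    OK r (nd h j s P) := by
  unfold nd; split_ifs
  · exact ⟨hh, hj, hs, by assumption⟩
  · exact ⟨hh, hj, by simp only; omega, by simp only; omega⟩

lemma Lat.ok {r s h j P : ℕ} {u v : Nd} (hL : Lat r s h j P u v) : OK r u ∧ OK r v := by
  obtain ⟨hs, hh, hj, hP, rfl, rfl⟩ := hL
  exact ⟨nd_ok hh hj hs (by omega), nd_ok hh hj hs (by omega)⟩

lemma Rad.ok {a r s R P Q : ℕ} {u v : Nd} (hR : Rad a r s R P Q u v) : OK r u ∧ OK r v := by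
  obtain ⟨hs, (⟨j, h1, rfl, h3, h4, -, -, rfl, rfl⟩ | ⟨rfl, h3, h4, -, rfl, rfl⟩ |
    ⟨j, h1, rfl, h3, h4, -, -, rfl, rfl⟩)⟩ := hR
  · exact ⟨nd_ok (by omega) (by omega) hs h3, nd_ok (by omega) (by omega) hs (by omega)⟩
  · exact ⟨nd_ok (by omega) le_rfl hs h3, nd_ok (by omega) le_rfl hs h4⟩
  · exact ⟨nd_ok (by omega) (by omega) hs (by omega), nd_ok (by omega) (by omega) hs h4⟩

/-- a vertex on a lateral edge is an end -/
lemma Lat.vert {r s h j P : ℕ} {u v w : Nd} (hL : Lat r s h j P u v) (hw : OK r w)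
    (hz : qq r w ∈ segment ℝ (qq r u) (qq r v)) : w = u ∨ w = v := by
  obtain ⟨τ, t1, t2, e⟩ := hL.pt hz
  obtain ⟨hs, hh, hj, hP, rfl, rfl⟩ := hL
  obtain ⟨w1, w2, w3, w4⟩ := hw
  have p1 := RR_pos (r := r) (h := h) hj
  have p2 := RR_pos (r := r) (h := w.h) w2
  have T2 := TT_le (P := P+1) p1.1
  have T2' : (TT j (RR r h j) (P+1) : ℝ) ≤ 3 * (RR r h j : ℝ) := by exact_mod_cast T2
  have T1' : (0 : ℝ) ≤ (TT j (RR r h j) P : ℝ) := Nat.cast_nonneg _
  have b1 : (w.p : ℝ) < 3 * (RR r w.h w.j : ℝ) := by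
    have : w.p < 3 * RR r w.h w.j := by omega
    exact_mod_cast this
  unfold qq at e
  obtain ⟨e1, e2⟩ := sect w3 hs (Nat.cast_nonneg _) b1.le (by linarith) (by linarith)
    (by exact_mod_cast p2.2) (by exact_mod_cast p1.2) e
  obtain ⟨f1, f2⟩ := RR_inj w1 hh w2 hj (by exact_mod_cast e1)
  have hw0 : w = ⟨w.h, w.j, w.s, w.p⟩ := rfl
  rcases e2 with ⟨g1, g2⟩ | ⟨g1, g2, g3⟩ | ⟨g1, g2, g3⟩
  · rw [← g2] at t1 t2
    have t1' : TT j (RR r h j) P ≤ w.p := by exact_mod_cast t1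
    have t2' : w.p ≤ TT j (RR r h j) (P+1) := by exact_mod_cast t2
    have hwp : w.p ≤ 2 * j := by rw [← f2]; exact w4
    unfold TT at t1' t2'
    rw [if_pos hP] at t1'
    by_cases hP1 : P + 1 ≤ 2 * j
    · rw [if_pos hP1] at t2'
      rcases Nat.eq_or_lt_of_le t1' with hp | hp
      · left
        unfold nd
        rw [if_pos hP, hw0, f1, f2, g1, ← hp]
      · right
        have hp' : w.p = P + 1 := by omega
        unfold nd
        rw [if_pos hP1, hw0, f1, f2, g1, hp']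
    · left
      have hp : w.p = P := by omega
      unfold nd
      rw [if_pos hP, hw0, f1, f2, g1, hp]
  · exfalso; linarith
  · right
    rw [g3, ← e1] at t2
    rw [e1] at t2
    have t2' : 3 * RR r h j ≤ TT j (RR r h j) (P+1) := by exact_mod_cast t2
    have h5 := TT_last p1.1 (by omega) t2'
    unfold nd
    rw [if_neg (by omega), hw0, f1, f2, g1]
    congr 1
    exact_mod_cast g2

lemma qq_eq (r : ℕ) (w : Nd) : qq r w = Phi w.s (RR r w.h w.j : ℝ) (w.p : ℝ) := rfl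

/-- the scale of a point of a radial edge which is a vertex is an end scale -/
lemma Rad.vert {a r s R P Q : ℕ} {u v w : Nd} (hR : Rad a r s R P Q u v) (hw : OK r w)
    (hz : qq r w ∈ segment ℝ (qq r u) (qq r v)) : w = u ∨ w = v := by
  obtain ⟨l, l0, l1, e, ea, eb⟩ := hR.pt hz
  obtain ⟨hs, hR1, hR2, hP, hQ, -, -⟩ := hR.coord
  obtain ⟨w1, w2, w3, w4⟩ := id hw
  have p2 := RR_pos (r := r) (h := w.h) w2
  have q1 := jr_pos (r := r) hR1 (by omega)
  have q2 := jr_pos (r := r) (R := R+1) (by omega) (by omega)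
  have T1 : (TT (jr r R) R P : ℝ) ≤ 3 * (R:ℝ) := by exact_mod_cast TT_le (P := P) q1
  have T2 : (TT (jr r (R+1)) (R+1) Q : ℝ) ≤ 3 * ((R:ℝ)+1) := by
    have := TT_le (P := Q) q2
    have h3 : ((TT (jr r (R+1)) (R+1) Q : ℕ) : ℝ) ≤ ((3 * (R+1) : ℕ) : ℝ) := by exact_mod_cast this
    push_cast at h3; linarith
  have T1' : (0 : ℝ) ≤ (TT (jr r R) R P : ℝ) := Nat.cast_nonneg _
  have T2' : (0 : ℝ) ≤ (TT (jr r (R+1)) (R+1) Q : ℝ) := Nat.cast_nonneg _
  have b1 : (w.p : ℝ) < 3 * (RR r w.h w.j : ℝ) := by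
    have : w.p < 3 * RR r w.h w.j := by omega
    exact_mod_cast this
  have hRpos : (1:ℝ) ≤ R := by exact_mod_cast hR1
  rw [qq_eq] at e
  obtain ⟨e1, -⟩ := sect w3 hs (Nat.cast_nonneg _) b1.le (by nlinarith) (by nlinarith)
    (by exact_mod_cast p2.2) (by linarith) e
  have hl : l = 0 ∨ l = 1 := by
    have h1 : (R : ℝ) ≤ (RR r w.h w.j : ℝ) := by linarith
    have h2 : (RR r w.h w.j : ℝ) ≤ (R : ℝ) + 1 := by linarith
    have h1' : R ≤ RR r w.h w.j := by exact_mod_cast h1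
    have h2' : RR r w.h w.j ≤ R + 1 := by exact_mod_cast h2
    rcases Nat.eq_or_lt_of_le h1' with h | h
    · left; rw [← h] at e1; linarith
    · right
      have : RR r w.h w.j = R + 1 := by omega
      rw [this] at e1; push_cast at e1; linarith
  rcases hl with h | h
  · left; exact qq_inj hw hR.ok.1 (ea h)
  · right; exact qq_inj hw hR.ok.2 (eb h)

/-- two lateral edges -/
lemma LL {r s h j P s' h' j' P' : ℕ} {u v u' v' : Nd} (hL : Lat r s h j P u v)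
    (hL' : Lat r s' h' j' P' u' v') {z : ℝ × ℝ} (hz : z ∈ segment ℝ (qq r u) (qq r v))
    (hz' : z ∈ segment ℝ (qq r u') (qq r v')) :
    (u = u' ∧ v = v') ∨ ∃ w, (w = u ∨ w = v) ∧ (w = u' ∨ w = v') ∧ z = qq r w := by
  obtain ⟨τ, t1, t2, e⟩ := hL.pt hz
  obtain ⟨τ', t1', t2', e'⟩ := hL'.pt hz'
  obtain ⟨hs, hh, hj, hP, rfl, rfl⟩ := hL
  obtain ⟨hs', hh', hj', hP', rfl, rfl⟩ := hL'
  have p1 := RR_pos (r := r) (h := h) hj
  have p2 := RR_pos (r := r) (h := h') hj'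
  have A2 : (TT j (RR r h j) (P+1) : ℝ) ≤ 3 * (RR r h j : ℝ) := by
    exact_mod_cast TT_le (P := P+1) p1.1
  have A1 : (0 : ℝ) ≤ (TT j (RR r h j) P : ℝ) := Nat.cast_nonneg _
  have B2 : (TT j' (RR r h' j') (P'+1) : ℝ) ≤ 3 * (RR r h' j' : ℝ) := by
    exact_mod_cast TT_le (P := P'+1) p2.1
  have B1 : (0 : ℝ) ≤ (TT j' (RR r h' j') P' : ℝ) := Nat.cast_nonneg _
  obtain ⟨e1, e2⟩ := sect hs hs' (by linarith) (by linarith) (by linarith) (by linarith)
    (by exact_mod_cast p1.2) (by exact_mod_cast p2.2) (e.symm.trans e')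
  obtain ⟨rfl, rfl⟩ := RR_inj hh hh' hj hj' (by exact_mod_cast e1)
  rcases e2 with ⟨rfl, rfl⟩ | ⟨g1, g2, g3⟩ | ⟨g1, g2, g3⟩
  · rcases lt_trichotomy P P' with hlt | rfl | hlt
    · right
      have hle : TT j (RR r h j) P' ≤ TT j (RR r h j) (P+1) := by
        exact_mod_cast t1'.trans t2
      have hPP : P' = P + 1 := by
        by_contra hn
        have := TT_lt (j := j) p1.1 (show P + 1 < P' by omega) (by omega)
        omega
      subst hPP
      refine ⟨nd h j s (P+1), Or.inr rfl, Or.inl rfl, ?_⟩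
      rw [e, qq_nd hs (by omega)]
      congr 1
      linarith
    · exact Or.inl ⟨rfl, rfl⟩
    · right
      have hle : TT j (RR r h j) P ≤ TT j (RR r h j) (P'+1) := by
        exact_mod_cast t1.trans t2'
      have hPP : P = P' + 1 := by
        by_contra hn
        have := TT_lt (j := j) p1.1 (show P' + 1 < P by omega) (by omega)
        omega
      subst hPP
      refine ⟨nd h j s (P'+1), Or.inl rfl, Or.inr rfl, ?_⟩
      rw [e, qq_nd hs (by omega)]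
      congr 1
      linarith
  · right
    have c1 : 3 * RR r h j ≤ TT j (RR r h j) (P+1) := by
      rw [g2] at t2; exact_mod_cast t2
    have c2 : TT j (RR r h j) P' ≤ 0 := by
      rw [g3] at t1'; exact_mod_cast t1'
    have d1 := TT_last p1.1 (by omega) c1
    have d2 := TT_zero p1.1 c2
    refine ⟨nd h j s (P+1), Or.inr rfl, Or.inl ?_, ?_⟩
    · rw [d1, d2]
      unfold nd
      rw [if_neg (by omega), if_pos (by omega), g1]
    · rw [e, qq_nd hs (by omega), g2]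
      congr 1
      have : TT j (RR r h j) (P+1) = 3 * RR r h j := le_antisymm (TT_le p1.1) c1
      rw [this]; push_cast; ring
  · right
    have c1 : 3 * RR r h j ≤ TT j (RR r h j) (P'+1) := by
      rw [g3] at t2'; exact_mod_cast t2'
    have c2 : TT j (RR r h j) P ≤ 0 := by
      rw [g2] at t1; exact_mod_cast t1
    have d1 := TT_last p1.1 (by omega) c1
    have d2 := TT_zero p1.1 c2
    refine ⟨nd h j s' (P'+1), Or.inl ?_, Or.inr rfl, ?_⟩
    · rw [d1, d2]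
      unfold nd
      rw [if_neg (by omega), if_pos (by omega), g1]
    · rw [e', qq_nd hs' (by omega), g3]
      congr 1
      have : TT j (RR r h j) (P'+1) = 3 * RR r h j := le_antisymm (TT_le p1.1) c1
      rw [this]; push_cast; ring

/-- a lateral and a radial edge -/
lemma LR {a r s h j P s' R' P' Q' : ℕ} {u v u' v' : Nd} (hL : Lat r s h j P u v)
    (hR : Rad a r s' R' P' Q' u' v') {z : ℝ × ℝ} (hz : z ∈ segment ℝ (qq r u) (qq r v))
    (hz' : z ∈ segment ℝ (qq r u') (qq r v')) :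
    ∃ w, (w = u ∨ w = v) ∧ (w = u' ∨ w = v') ∧ z = qq r w := by
  obtain ⟨τ, t1, t2, e⟩ := hL.pt hz
  obtain ⟨l, l0, l1, e', ea, eb⟩ := hR.pt hz'
  obtain ⟨hs', hR1, hR2, hP', hQ', -, -⟩ := hR.coord
  have hj := hL.2.2.1
  have p1 := RR_pos (r := r) (h := h) hj
  have A2 : (TT j (RR r h j) (P+1) : ℝ) ≤ 3 * (RR r h j : ℝ) := by
    exact_mod_cast TT_le (P := P+1) p1.1
  have A1 : (0 : ℝ) ≤ (TT j (RR r h j) P : ℝ) := Nat.cast_nonneg _
  have q1 := jr_pos (r := r) hR1 (by omega)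
  have q2 := jr_pos (r := r) (R := R'+1) (by omega) (by omega)
  have T1 : (TT (jr r R') R' P' : ℝ) ≤ 3 * (R':ℝ) := by exact_mod_cast TT_le (P := P') q1
  have T2 : (TT (jr r (R'+1)) (R'+1) Q' : ℝ) ≤ 3 * ((R':ℝ)+1) := by
    have := TT_le (P := Q') q2
    have h3 : ((TT (jr r (R'+1)) (R'+1) Q' : ℕ) : ℝ) ≤ ((3 * (R'+1) : ℕ) : ℝ) := by
      exact_mod_cast this
    push_cast at h3; linarith
  have T1' : (0 : ℝ) ≤ (TT (jr r R') R' P' : ℝ) := Nat.cast_nonneg _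
  have T2' : (0 : ℝ) ≤ (TT (jr r (R'+1)) (R'+1) Q' : ℝ) := Nat.cast_nonneg _
  have hRpos : (1:ℝ) ≤ R' := by exact_mod_cast hR1
  obtain ⟨e1, -⟩ := sect hL.1 hs' (by linarith) (by linarith) (by nlinarith) (by nlinarith)
    (by exact_mod_cast p1.2) (by linarith) (e.symm.trans e')
  have hl : l = 0 ∨ l = 1 := by
    have h1 : (R' : ℝ) ≤ (RR r h j : ℝ) := by linarith
    have h2 : (RR r h j : ℝ) ≤ (R' : ℝ) + 1 := by linarith
    have h1' : R' ≤ RR r h j := by exact_mod_cast h1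
    have h2' : RR r h j ≤ R' + 1 := by exact_mod_cast h2
    rcases Nat.eq_or_lt_of_le h1' with heq | hlt
    · left; rw [← heq] at e1; linarith
    · right
      have h7 : RR r h j = R' + 1 := by omega
      rw [h7] at e1; push_cast at e1; linarith
  rcases hl with h | h
  · have hz0 := ea h
    rw [hz0] at hz
    exact ⟨u', hL.vert hR.ok.1 hz, Or.inl rfl, hz0⟩
  · have hz0 := eb h
    rw [hz0] at hz
    exact ⟨v', hL.vert hR.ok.2 hz, Or.inr rfl, hz0⟩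

lemma lin_mono {l : ℝ} (h0 : 0 < l) (h1 : l < 1) {A B A' B' : ℕ} (hAB : A < A' → B ≤ B')
    (hAB' : A' < A → B' ≤ B) (e : (1-l)*(A:ℝ) + l*(B:ℝ) = (1-l)*(A':ℝ) + l*(B':ℝ)) :
    A = A' ∧ B = B' := by
  rcases lt_trichotomy A A' with h | h | h
  · exfalso
    have h2 : (A:ℝ) < A' := by exact_mod_cast h
    have h3 : (B:ℝ) ≤ B' := by exact_mod_cast hAB h
    nlinarith
  · subst h
    refine ⟨rfl, ?_⟩
    have h5 : l*(B:ℝ) = l*(B':ℝ) := by linarith
    exact_mod_cast mul_left_cancel₀ h0.ne' h5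
  · exfalso
    have h2 : (A':ℝ) < A := by exact_mod_cast h
    have h3 : (B':ℝ) ≤ B := by exact_mod_cast hAB' h
    nlinarith

lemma TT_mono {j R P P' : ℕ} (hR : 2*j < 3*R) (h : P ≤ P') (hP' : P' ≤ 2*j+1) :
    TT j R P ≤ TT j R P' := by
  rcases Nat.eq_or_lt_of_le h with rfl | h
  · exact le_rfl
  · exact (TT_lt hR h hP').le

/-- two radial edges -/
lemma RRad {a r s R P Q s' R' P' Q' : ℕ} {u v u' v' : Nd} (hR : Rad a r s R P Q u v)
    (hR' : Rad a r s' R' P' Q' u' v') {z : ℝ × ℝ} (hz : z ∈ segment ℝ (qq r u) (qq r v))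
    (hz' : z ∈ segment ℝ (qq r u') (qq r v')) :
    (u = u' ∧ v = v') ∨ ∃ w, (w = u ∨ w = v) ∧ (w = u' ∨ w = v') ∧ z = qq r w := by
  obtain ⟨l, l0, l1, e, ea, eb⟩ := hR.pt hz
  obtain ⟨l', l0', l1', e', ea', eb'⟩ := hR'.pt hz'
  obtain ⟨hs, hR1, hR2, hP, hQ, hqu, hqv⟩ := hR.coord
  obtain ⟨hs', hR1', hR2', hP', hQ', hqu', hqv'⟩ := hR'.coord
  obtain ⟨ou, ov⟩ := hR.ok
  obtain ⟨ou', ov'⟩ := hR'.ok
  -- ends
  by_cases c0 : l = 0
  · right
    have hz0 := ea c0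
    rw [hz0] at hz'
    exact ⟨u, Or.inl rfl, hR'.vert ou hz', hz0⟩
  by_cases c1 : l = 1
  · right
    have hz0 := eb c1
    rw [hz0] at hz'
    exact ⟨v, Or.inr rfl, hR'.vert ov hz', hz0⟩
  by_cases c0' : l' = 0
  · right
    have hz0 := ea' c0'
    rw [hz0] at hz
    exact ⟨u', hR.vert ou' hz, Or.inl rfl, hz0⟩
  by_cases c1' : l' = 1
  · right
    have hz0 := eb' c1'
    rw [hz0] at hz
    exact ⟨v', hR.vert ov' hz, Or.inr rfl, hz0⟩
  left
  have k0 : 0 < l := lt_of_le_of_ne l0 (Ne.symm c0)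
  have k1 : l < 1 := lt_of_le_of_ne l1 c1
  have k0' : 0 < l' := lt_of_le_of_ne l0' (Ne.symm c0')
  have k1' : l' < 1 := lt_of_le_of_ne l1' c1'
  have q1 := jr_pos (r := r) hR1 (by omega)
  have q2 := jr_pos (r := r) (R := R+1) (by omega) (by omega)
  have q1' := jr_pos (r := r) hR1' (by omega)
  have q2' := jr_pos (r := r) (R := R'+1) (by omega) (by omega)
  have T1 : (TT (jr r R) R P : ℝ) ≤ 3 * (R:ℝ) := by exact_mod_cast TT_le (P := P) q1
  have T2 : (TT (jr r (R+1)) (R+1) Q : ℝ) ≤ 3 * ((R:ℝ)+1) := by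
    have h3 : ((TT (jr r (R+1)) (R+1) Q : ℕ) : ℝ) ≤ ((3 * (R+1) : ℕ) : ℝ) := by
      exact_mod_cast TT_le (P := Q) q2
    push_cast at h3; linarith
  have T3 : (TT (jr r R') R' P' : ℝ) ≤ 3 * (R':ℝ) := by exact_mod_cast TT_le (P := P') q1'
  have T4 : (TT (jr r (R'+1)) (R'+1) Q' : ℝ) ≤ 3 * ((R':ℝ)+1) := by
    have h3 : ((TT (jr r (R'+1)) (R'+1) Q' : ℕ) : ℝ) ≤ ((3 * (R'+1) : ℕ) : ℝ) := by
      exact_mod_cast TT_le (P := Q') q2'
    push_cast at h3; linarith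
  have T1' : (0 : ℝ) ≤ (TT (jr r R) R P : ℝ) := Nat.cast_nonneg _
  have T2' : (0 : ℝ) ≤ (TT (jr r (R+1)) (R+1) Q : ℝ) := Nat.cast_nonneg _
  have T3' : (0 : ℝ) ≤ (TT (jr r R') R' P' : ℝ) := Nat.cast_nonneg _
  have T4' : (0 : ℝ) ≤ (TT (jr r (R'+1)) (R'+1) Q' : ℝ) := Nat.cast_nonneg _
  have hRpos : (1:ℝ) ≤ R := by exact_mod_cast hR1
  have hRpos' : (1:ℝ) ≤ R' := by exact_mod_cast hR1'
  obtain ⟨e1, e2⟩ := sect hs hs' (by nlinarith) (by nlinarith) (by nlinarith) (by nlinarith)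
    (by linarith) (by linarith) (e.symm.trans e')
  have hRR : R = R' := by
    have h1 : (R:ℝ) < R' + 1 := by linarith
    have h2 : (R':ℝ) < R + 1 := by linarith
    have h1' : R < R' + 1 := by exact_mod_cast h1
    have h2' : R' < R + 1 := by exact_mod_cast h2
    omega
  subst hRR
  have hll : l = l' := by linarith
  subst hll
  rcases e2 with ⟨rfl, g⟩ | ⟨g1, g2, g3⟩ | ⟨g1, g2, g3⟩
  · have m1 : TT (jr r R) R P < TT (jr r R) R P' →
        TT (jr r (R+1)) (R+1) Q ≤ TT (jr r (R+1)) (R+1) Q' := by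
      intro hlt
      have hPP : P < P' := by
        by_contra hn
        have := TT_mono q1 (not_lt.1 hn) hP
        omega
      exact TT_mono q2 (hR.mono hR' hPP) hQ'
    have m2 : TT (jr r R) R P' < TT (jr r R) R P →
        TT (jr r (R+1)) (R+1) Q' ≤ TT (jr r (R+1)) (R+1) Q := by
      intro hlt
      have hPP : P' < P := by
        by_contra hn
        have := TT_mono q1 (not_lt.1 hn) hP'
        omega
      exact TT_mono q2 (hR'.mono hR hPP) hQ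
    obtain ⟨f1, f2⟩ := lin_mono k0 k1 m1 m2 g
    constructor
    · apply qq_inj ou ou'
      rw [hqu, hqu', f1]
    · apply qq_inj ov ov'
      rw [hqv, hqv', f2]
  · have f1 : (TT (jr r R) R P : ℝ) = 3 * (R:ℝ) := by nlinarith
    have f2 : (TT (jr r (R+1)) (R+1) Q : ℝ) = 3 * ((R:ℝ)+1) := by nlinarith
    have f3 : (TT (jr r R) R P' : ℝ) = 0 := by nlinarith
    have f4 : (TT (jr r (R+1)) (R+1) Q' : ℝ) = 0 := by nlinarith
    constructor
    · apply qq_inj ou ou'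
      rw [hqu, hqu', f1, f3, g1, Phi_next hs]
    · apply qq_inj ov ov'
      rw [hqv, hqv', f2, f4, g1, Phi_next hs]
      push_cast; rfl
  · have f1 : (TT (jr r R) R P' : ℝ) = 3 * (R:ℝ) := by nlinarith
    have f2 : (TT (jr r (R+1)) (R+1) Q' : ℝ) = 3 * ((R:ℝ)+1) := by nlinarith
    have f3 : (TT (jr r R) R P : ℝ) = 0 := by nlinarith
    have f4 : (TT (jr r (R+1)) (R+1) Q : ℝ) = 0 := by nlinarith
    constructor
    · apply qq_inj ou ou'
      rw [hqu, hqu', f1, f3, g1, Phi_next hs']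
    · apply qq_inj ov ov'
      rw [hqv, hqv', f2, f4, g1, Phi_next hs']
      push_cast; rfl

end Pool.Agent.R32.GT
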