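import Pool.Agent.R32.GT.Defs
import Pool.Agent.Y655.RF.Deg

set_option autoImplicit false

/-! A plane straight-line graph on `n ≥ 3` vertices has at most `3 n - 6` edges (weak `K₅` and
Mader's bound), and the resulting bound `k < 6 s` for `k`-regular graphs of geometric thickness at
most `s`. -/

namespace Pool.Agent.R32.GT

open Set Pool.Agent.Y655.RF Pool.Agent.Y865.RF

/-- a plane straight-line drawing -/
structure Plane {V : Type} (G : SimpleGraph V) (p : V → ℝ × ℝ) : Prop where
  inj : Function.Injective p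
  avoid : ∀ u v w, G.Adj u v → p w ∈ segment ℝ (p u) (p v) → w = u ∨ w = v
  cross : ∀ u v x y, G.Adj u v → G.Adj x y → s(u, v) ≠ s(x, y) →
    ∀ z ∈ segment ℝ (p u) (p v), z ∈ segment ℝ (p x) (p y) →
      ∃ w, (w = u ∨ w = v) ∧ (w = x ∨ w = y) ∧ z = p w

def tc (z : ℝ × ℝ) : ℂ := ⟨z.1, z.2⟩

def Dw {V : Type} (G : SimpleGraph V) (p : V → ℝ × ℝ) (S : Set V) : Set ℂ :=
  {z | (∃ v ∈ S, z = tc (p v)) ∨ ∃ u ∈ S, ∃ v ∈ S, G.Adj u v ∧
    z ∈ segment ℝ (tc (p u)) (tc (p v))}

lemma tc_inj : Function.Injective tc := by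
  intro a b h
  simp only [tc, Complex.mk.injEq] at h
  exact Prod.ext h.1 h.2

lemma tc_seg {a b : ℝ × ℝ} {z : ℂ} (h : z ∈ segment ℝ (tc a) (tc b)) :
    ((z.re, z.im) : ℝ × ℝ) ∈ segment ℝ a b ∧ z = tc (z.re, z.im) := by
  refine ⟨?_, Complex.ext rfl rfl⟩
  obtain ⟨s, t, hs, ht, hst, rfl⟩ := h
  refine ⟨s, t, hs, ht, hst, ?_⟩
  ext <;> simp [tc]

variable {V : Type} {G : SimpleGraph V} {p : V → ℝ × ℝ}

lemma Dw_disjoint (h : Plane G p) {A B : Set V} (hAB : Disjoint A B) :
    Disjoint (Dw G p A) (Dw G p B) := by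
  have hne : ∀ v, v ∈ A → v ∉ B := fun v hv hv' => Set.disjoint_left.mp hAB hv hv'
  rw [Set.disjoint_left]
  rintro z (⟨v, hv, rfl⟩ | ⟨u, hu, v, hv, huv, hz⟩) (⟨w, hw, hz'⟩ | ⟨w, hw, x, hx, hwx, hz'⟩)
  · exact hne v hv (h.inj (tc_inj hz') ▸ hw)
  · obtain ⟨h1, h2⟩ := tc_seg hz'
    rcases h.avoid w x v hwx h1 with rfl | rfl
    · exact hne _ hv hw
    · exact hne _ hv hx
  · subst hz'
    obtain ⟨h1, h2⟩ := tc_seg hz
    rcases h.avoid u v w huv h1 with rfl | rfl
    · exact hne _ hu hw
    · exact hne _ hv hw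
  · obtain ⟨h1, h2⟩ := tc_seg hz
    obtain ⟨h3, h4⟩ := tc_seg hz'
    obtain ⟨y, hy, hy', -⟩ := h.cross u v w x huv hwx (by
      intro e
      rcases Sym2.eq_iff.1 e with ⟨e, _⟩ | ⟨e, _⟩
      · exact hne u hu (e ▸ hw)
      · exact hne u hu (e ▸ hx)) _ h1 h3
    rcases hy with rfl | rfl <;> rcases hy' with rfl | rfl
    · exact hne _ hu hw
    · exact hne _ hu hx
    · exact hne _ hv hw
    · exact hne _ hv hx

lemma Dw_joined (S : Set V) {u v : V} (w : G.Walk u v) (hw : ∀ x ∈ w.support, x ∈ S) :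
    JoinedIn (Dw G p S) (tc (p u)) (tc (p v)) := by
  induction w with
  | nil => exact JoinedIn.refl (Or.inl ⟨_, hw _ (by simp), rfl⟩)
  | @cons a b c hab w ih =>
    have ha : a ∈ S := hw a (by simp)
    have hb : b ∈ S := hw b (by simp)
    refine JoinedIn.trans ?_ (ih (fun x hx => hw x (by simp [hx])))
    have h1 : JoinedIn (segment ℝ (tc (p a)) (tc (p b))) (tc (p a)) (tc (p b)) :=
      (Convex.isPathConnected (convex_segment _ _) ⟨_, left_mem_segment ℝ _ _⟩).joinedIn _
        (left_mem_segment ℝ _ _) _ (right_mem_segment ℝ _ _)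
    exact h1.mono (fun z hz => Or.inr ⟨a, ha, b, hb, hab, hz⟩)

theorem Plane.not_ws (h : Plane G p) (S : Set V) : ¬ WS S G := by
  rintro ⟨x, A, h1, h2, -⟩
  refine Pool.Agent.Helper479.Bond.VK.k5_joined (fun i => tc (p (x i)))
    (fun a b => Dw G p (A a b)) ?_ ?_
  · intro a b hab
    obtain ⟨w, hw⟩ := h1 a b hab
    exact Dw_joined (A a b) w hw
  · intro a b c d hab hcd e1 e2 e3 e4
    exact Dw_disjoint h (h2 a b c d hab hcd e1 e2 e3 e4)

/-- the ordered edge count of a plane straight-line graph -/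
theorem Plane.card_lt [Fintype V] [DecidableEq V] (h : Plane G p) (hV : 3 ≤ Fintype.card V) :
    (EE G).card + 10 < 6 * Fintype.card V := by
  by_contra hcon
  push Not at hcon
  exact h.not_ws _ (mader _ (Finset.univ : Finset V) G (by simp) (fun x y _ => ⟨by simp, by simp⟩)
    hV hcon)

lemma Plane.mono {H : SimpleGraph V} (h : Plane G p) (hle : H ≤ G) : Plane H p where
  inj := h.inj
  avoid u v w huv := h.avoid u v w (hle huv)
  cross u v x y huv hxy := h.cross u v x y (hle huv) (hle hxy)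

/-- `k`-regular graphs with `s` layers have `k < 6 s` (or `k ≤ 1`). -/
theorem regular_lt [Fintype V] [DecidableEq V] [Nonempty V] {s k : ℕ} (hk : 1 ≤ k)
    (hreg : ∀ v, (G.neighborSet v).ncard = k) (hL : HasLayers G s) : k < 6 * s := by
  classical
  obtain ⟨p, c, ⟨hinj, havoid⟩, hc, hplane⟩ := hL
  have hs : 1 ≤ s := by
    obtain ⟨v⟩ := ‹Nonempty V›
    have h1 : (G.neighborSet v).Nonempty := by
      rw [← Set.ncard_pos (Set.toFinite _), hreg v]; omega
    obtain ⟨w, hw⟩ := h1
    have := hc s(v, w) hw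
    omega
  by_cases hV : 3 ≤ Fintype.card V
  · -- layers
    let L : ℕ → SimpleGraph V := fun i =>
      { Adj := fun u v => G.Adj u v ∧ c s(u, v) = i
        symm := ⟨fun u v h => ⟨h.1.symm, by rw [Sym2.eq_swap]; exact h.2⟩⟩
        loopless := ⟨fun u h => h.1.ne rfl⟩ }
    have hLp : ∀ i, Plane (L i) p := fun i =>
      { inj := hinj
        avoid := fun u v w huv => havoid u v w huv.1
        cross := fun u v x y huv hxy hne z hz hz' =>
          hplane u v x y huv.1 hxy.1 hne (huv.2.trans hxy.2.symm) z hz hz' }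
    have hEE : (EE G).card = ∑ i ∈ Finset.range s, (EE (L i)).card := by
      rw [Finset.card_eq_sum_card_fiberwise (f := fun q : V × V => c s(q.1, q.2))
        (t := Finset.range s)]
      · apply Finset.sum_congr rfl
        intro i _
        congr 1
        ext q
        rw [Finset.mem_filter, mem_EE, mem_EE]
      · intro q hq
        have := mem_EE.1 (Finset.mem_coe.1 hq)
        exact Finset.mem_coe.2 (Finset.mem_range.2 (hc _ this))
    have h1 : (EE G).card = Fintype.card V * k := by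
      rw [card_EE (S := Finset.univ) (fun x y _ => ⟨by simp, by simp⟩)]
      rw [Finset.sum_congr rfl (g := fun _ => k)]
      · simp
      · intro x _
        rw [← hreg x, ← Set.ncard_coe_finset]
        congr 1
        ext y
        rw [Finset.mem_coe, mem_NN]
        rfl
    have h2 : ∑ i ∈ Finset.range s, (EE (L i)).card <
        ∑ _i ∈ Finset.range s, 6 * Fintype.card V := by
      apply Finset.sum_lt_sum_of_nonempty ⟨0, Finset.mem_range.2 hs⟩
      intro i _
      have := (hLp i).card_lt hV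
      omega
    rw [← hEE, h1, Finset.sum_const, Finset.card_range, smul_eq_mul] at h2
    by_contra hcon
    push Not at hcon
    have : Fintype.card V * (6 * s) ≤ Fintype.card V * k := Nat.mul_le_mul_left _ hcon
    have e : Fintype.card V * (6 * s) = s * (6 * Fintype.card V) := by ring
    omega
  · -- at most two vertices
    obtain ⟨v⟩ := ‹Nonempty V›
    have h1 : (G.neighborSet v).ncard < Fintype.card V := by
      have h2 : G.neighborSet v ⊆ (Finset.univ.erase v : Finset V) := by
        intro w hw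
        simp only [Finset.coe_erase, Finset.coe_univ, mem_sdiff, mem_univ, mem_singleton_iff,
          true_and]
        exact fun e => (G.ne_of_adj hw) e.symm
      have h3 := Set.ncard_le_ncard h2 (Set.toFinite _)
      rw [Set.ncard_coe_finset, Finset.card_erase_of_mem (Finset.mem_univ _),
        Finset.card_univ] at h3
      have : 0 < Fintype.card V := Fintype.card_pos_iff.2 ⟨v⟩
      omega
    rw [hreg v] at h1
    omega

end Pool.Agent.R32.GT
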