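import Pool.Agent.R32.GT.Base
import Pool.Agent.R32.GT.Upper

set_option autoImplicit false

/-!
# The base family: the drawing on nested triangles
-/

namespace Pool.Agent.R32.GT

open Set

/-- the point with coordinates `(ρ, τ)` in sector `s` -/
def Phi (s : ℕ) (ρ τ : ℝ) : ℝ × ℝ :=
  if s = 0 then (-ρ + τ, -ρ) else if s = 1 then (2*ρ - τ, -ρ + τ) else (-ρ, 2*ρ - τ)

lemma Phi0 (ρ τ : ℝ) : Phi 0 ρ τ = (-ρ + τ, -ρ) := rfl
lemma Phi1 (ρ τ : ℝ) : Phi 1 ρ τ = (2*ρ - τ, -ρ + τ) := rfl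
lemma Phi2 (ρ τ : ℝ) : Phi 2 ρ τ = (-ρ, 2*ρ - τ) := rfl

lemma Phi_next {s : ℕ} (hs : s < 3) (ρ : ℝ) : Phi ((s+1)%3) ρ 0 = Phi s ρ (3*ρ) := by
  interval_cases s
  · simp only [Nat.zero_add, Nat.one_mod]; rw [Phi0, Phi1]; ext <;> simp <;> ring
  · show Phi 2 ρ 0 = Phi 1 ρ (3*ρ)
    rw [Phi1, Phi2]; ext <;> simp <;> ring
  · show Phi 0 ρ 0 = Phi 2 ρ (3*ρ)
    rw [Phi0, Phi2]; ext <;> simp <;> ring

lemma Phi_seg {s : ℕ} {ρ τ ρ' τ' : ℝ} {z : ℝ × ℝ}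
    (hz : z ∈ segment ℝ (Phi s ρ τ) (Phi s ρ' τ')) :
    ∃ l : ℝ, 0 ≤ l ∧ l ≤ 1 ∧ z = Phi s ((1-l)*ρ + l*ρ') ((1-l)*τ + l*τ') := by
  obtain ⟨c, l, hc, hl, hcl, rfl⟩ := hz
  have hc' : c = 1 - l := by linarith
  subst hc'
  refine ⟨l, hl, by linarith, ?_⟩
  unfold Phi
  split_ifs <;> ext <;> simp <;> ring

lemma sect {s s' : ℕ} (hs : s < 3) (hs' : s' < 3) {ρ τ ρ' τ' : ℝ} (h0 : 0 ≤ τ) (h1 : τ ≤ 3*ρ)
    (h0' : 0 ≤ τ') (h1' : τ' ≤ 3*ρ') (hρ : 0 < ρ) (hρ' : 0 < ρ') (h : Phi s ρ τ = Phi s' ρ' τ') :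
    ρ = ρ' ∧ ((s = s' ∧ τ = τ') ∨ (s' = (s+1)%3 ∧ τ = 3*ρ ∧ τ' = 0) ∨
      (s = (s'+1)%3 ∧ τ = 0 ∧ τ' = 3*ρ')) := by
  interval_cases s <;> interval_cases s' <;> simp only [Phi0, Phi1, Phi2, Prod.mk.injEq] at h <;>
    obtain ⟨e1, e2⟩ := h
  · exact ⟨by linarith, Or.inl ⟨rfl, by linarith⟩⟩
  · exact ⟨by linarith, Or.inr (Or.inl ⟨rfl, by linarith, by linarith⟩)⟩
  · exact ⟨by linarith, Or.inr (Or.inr ⟨rfl, by linarith, by linarith⟩)⟩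
  · exact ⟨by linarith, Or.inr (Or.inr ⟨rfl, by linarith, by linarith⟩)⟩
  · exact ⟨by linarith, Or.inl ⟨rfl, by linarith⟩⟩
  · exact ⟨by linarith, Or.inr (Or.inl ⟨rfl, by linarith, by linarith⟩)⟩
  · exact ⟨by linarith, Or.inr (Or.inl ⟨rfl, by linarith, by linarith⟩)⟩
  · exact ⟨by linarith, Or.inr (Or.inr ⟨rfl, by linarith, by linarith⟩)⟩
  · exact ⟨by linarith, Or.inl ⟨rfl, by linarith⟩⟩

/-- scale of a ring -/
def RR (r h j : ℕ) : ℕ := if h = 0 then j + 1 else 2*r + 2 - j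

/-- the drawing -/
noncomputable def qq (r : ℕ) (u : Nd) : ℝ × ℝ := Phi u.s (RR r u.h u.j : ℝ) (u.p : ℝ)

/-- vertex number `P` of side `s`, both ends of the side included -/
def nd (h j s P : ℕ) : Nd := if P ≤ 2*j then ⟨h, j, s, P⟩ else ⟨h, j, (s+1)%3, 0⟩

def TT (j R P : ℕ) : ℕ := if P ≤ 2*j then P else 3*R

lemma TT_lt {j R P P' : ℕ} (hR : 2*j < 3*R) (h : P < P') (hP' : P' ≤ 2*j+1) :
    TT j R P < TT j R P' := by
  unfold TT; split_ifs <;> omega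

lemma TT_le {j R P : ℕ} (hR : 2*j < 3*R) : TT j R P ≤ 3*R := by
  unfold TT; split_ifs <;> omega

lemma TT_last {j R P : ℕ} (hR : 2*j < 3*R) (hP : P ≤ 2*j+1) (h : 3*R ≤ TT j R P) :
    P = 2*j+1 := by
  unfold TT at h; split_ifs at h <;> omega

lemma TT_zero {j R P : ℕ} (hR : 2*j < 3*R) (h : TT j R P ≤ 0) : P = 0 := by
  unfold TT at h; split_ifs at h <;> omega

lemma RR_pos {r h j : ℕ} (hj : j ≤ r) : 2*j < 3 * RR r h j ∧ 0 < RR r h j := by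
  unfold RR; split_ifs <;> omega

lemma RR_inj {r h j h' j' : ℕ} (hh : h < 2) (hh' : h' < 2) (hj : j ≤ r) (hj' : j' ≤ r)
    (e : RR r h j = RR r h' j') : h = h' ∧ j = j' := by
  unfold RR at e; split_ifs at e <;> omega

lemma qq_nd {r h j s P : ℕ} (hs : s < 3) (hP : P ≤ 2*j+1) :
    qq r (nd h j s P) = Phi s (RR r h j : ℝ) (TT j (RR r h j) P : ℝ) := by
  unfold qq nd TT
  by_cases h1 : P ≤ 2*j
  · rw [if_pos h1, if_pos h1]
  · rw [if_neg h1, if_neg h1]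
    simp only
    push_cast
    exact Phi_next hs _

lemma qq_inj {r : ℕ} {u v : Nd} (hu : OK r u) (hv : OK r v) (h : qq r u = qq r v) : u = v := by
  obtain ⟨u1, u2, u3, u4⟩ := hu
  obtain ⟨v1, v2, v3, v4⟩ := hv
  unfold qq at h
  have a1 := RR_pos (h := u.h) u2
  have a2 := RR_pos (h := v.h) v2
  have b1 : (u.p : ℝ) < 3 * (RR r u.h u.j : ℝ) := by
    have : u.p < 3 * RR r u.h u.j := by omega
    exact_mod_cast this
  have b2 : (v.p : ℝ) < 3 * (RR r v.h v.j : ℝ) := by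
    have : v.p < 3 * RR r v.h v.j := by omega
    exact_mod_cast this
  obtain ⟨e1, e2⟩ := sect u3 v3 (Nat.cast_nonneg _) b1.le (Nat.cast_nonneg _) b2.le
    (by exact_mod_cast a1.2) (by exact_mod_cast a2.2) h
  have e3 := RR_inj u1 v1 u2 v2 (by exact_mod_cast e1)
  rcases e2 with ⟨f1, f2⟩ | ⟨f1, f2, f3⟩ | ⟨f1, f2, f3⟩
  · ext
    · exact e3.1
    · exact e3.2
    · exact f1
    · exact_mod_cast f2
  · linarith
  · linarith

/-- a lateral edge -/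
def Lat (r s h j P : ℕ) (u v : Nd) : Prop :=
  s < 3 ∧ h < 2 ∧ j ≤ r ∧ P ≤ 2*j ∧ u = nd h j s P ∧ v = nd h j s (P+1)

/-- a radial edge between the scales `R` and `R + 1` -/
def Rad (a r s R P Q : ℕ) (u v : Nd) : Prop := s < 3 ∧
  ((∃ j, j < r ∧ R = j + 1 ∧ P ≤ 2*j+1 ∧ Q ≤ 2*j+3 ∧ FF a j P ≤ Q + 1 ∧ Q + 1 ≤ FF a j (P+1) ∧
    u = nd 0 j s P ∧ v = nd 0 (j+1) s Q) ∨
  (R = r + 1 ∧ P ≤ 2*r+1 ∧ Q ≤ 2*r+1 ∧ (Q = P ∨ Q = P + 1) ∧ u = nd 0 r s P ∧ v = nd 1 r s Q) ∨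
  (∃ j, j < r ∧ R = 2*r + 1 - j ∧ P ≤ 2*j+3 ∧ Q ≤ 2*j+1 ∧ FF a j Q ≤ P + 1 ∧
    P + 1 ≤ FF a j (Q+1) ∧ u = nd 1 (j+1) s P ∧ v = nd 1 j s Q))

/-- the ring of a scale -/
def jr (r R : ℕ) : ℕ := if R ≤ r + 1 then R - 1 else 2*r + 2 - R

lemma Rad.coord {a r s R P Q : ℕ} {u v : Nd} (h : Rad a r s R P Q u v) :
    s < 3 ∧ 1 ≤ R ∧ R ≤ 2*r+1 ∧ P ≤ 2 * jr r R + 1 ∧ Q ≤ 2 * jr r (R+1) + 1 ∧
    qq r u = Phi s (R : ℝ) (TT (jr r R) R P : ℝ) ∧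
    qq r v = Phi s ((R + 1 : ℕ) : ℝ) (TT (jr r (R+1)) (R+1) Q : ℝ) := by
  obtain ⟨hs, (⟨j, h1, rfl, h3, h4, -, -, rfl, rfl⟩ | ⟨rfl, h3, h4, -, rfl, rfl⟩ |
    ⟨j, h1, rfl, h3, h4, -, -, rfl, rfl⟩)⟩ := h
  · have e1 : jr r (j+1) = j := by unfold jr; rw [if_pos (by omega)]; rfl
    have e2 : jr r (j+1+1) = j+1 := by unfold jr; rw [if_pos (by omega)]; rfl
    rw [e1, e2, qq_nd hs h3, qq_nd hs (by omega)]
    exact ⟨hs, by omega, by omega, h3, by omega, rfl, rfl⟩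
  · have e1 : jr r (r+1) = r := by unfold jr; rw [if_pos (by omega)]; rfl
    have e2 : jr r (r+1+1) = r := by unfold jr; rw [if_neg (by omega)]; omega
    have e3 : RR r 1 r = r + 1 + 1 := by unfold RR; rw [if_neg (by omega)]; omega
    rw [e1, e2, qq_nd hs h3, qq_nd hs h4, e3]
    exact ⟨hs, by omega, by omega, h3, h4, rfl, rfl⟩
  · have e1 : jr r (2*r+1-j) = j+1 := by unfold jr; rw [if_neg (by omega)]; omega
    have e2 : jr r (2*r+1-j+1) = j := by unfold jr; rw [if_neg (by omega)]; omega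
    have e3 : RR r 1 (j+1) = 2*r+1-j := by unfold RR; rw [if_neg (by omega)]; omega
    have e4 : RR r 1 j = 2*r+1-j+1 := by unfold RR; rw [if_neg (by omega)]; omega
    rw [e1, e2, qq_nd hs (by omega), qq_nd hs h4, e3, e4]
    exact ⟨hs, by omega, by omega, by omega, h4, rfl, rfl⟩

lemma jr_pos {r R : ℕ} (h1 : 1 ≤ R) (h2 : R ≤ 2*r+2) : 2 * jr r R < 3 * R := by
  unfold jr; split_ifs <;> omega

lemma FF_mono {a j P P' : ℕ} (h : P ≤ P') : FF a j P ≤ FF a j P' := by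
  unfold FF; omega

lemma Rad.mono {a r s R P Q P' Q' : ℕ} {u v u' v' : Nd} (h : Rad a r s R P Q u v)
    (h' : Rad a r s R P' Q' u' v') (hP : P < P') : Q ≤ Q' := by
  obtain ⟨hs, (⟨j, h1, h2, h3, h4, h5, h6, -, -⟩ | ⟨h2, h3, h4, h5, -, -⟩ |
    ⟨j, h1, h2, h3, h4, h5, h6, -, -⟩)⟩ := h <;>
  obtain ⟨hs, (⟨j', g1, g2, g3, g4, g5, g6, -, -⟩ | ⟨g2, g3, g4, g5, -, -⟩ |
    ⟨j', g1, g2, g3, g4, g5, g6, -, -⟩)⟩ := h' <;> try omega
  · have e : j' = j := by omega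
    subst e
    have := FF_mono (a := a) (j := j') (show P + 1 ≤ P' by omega)
    omega
  · have e : j' = j := by omega
    subst e
    by_contra hcon
    have := FF_mono (a := a) (j := j') (show Q' + 1 ≤ Q by omega)
    omega

/-- every edge of the triangulation is lateral or radial -/
lemma St_rep {a r : ℕ} {u v : Nd} (hu : OK r u) (hv : OK r v) (h : St a r u v) :
    (∃ s h j P, Lat r s h j P u v) ∨ (∃ s R P Q, Rad a r s R P Q u v ∨ Rad a r s R P Q v u) := by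
  obtain ⟨h0, j, s, p⟩ := u
  obtain ⟨h0', j', s', p'⟩ := v
  obtain ⟨u1, u2, u3, u4⟩ := hu
  obtain ⟨v1, v2, v3, v4⟩ := hv
  simp only at u1 u2 u3 u4 v1 v2 v3 v4
  rcases h with ⟨e1, e2, e3⟩ | ⟨e1, e2, Q, q1, q2, e3⟩ | ⟨e1, e2, e3, e4, e5⟩
  · left
    simp only at e1 e2 e3
    subst e1 e2
    refine ⟨s, h0, j, p, u3, u1, u2, u4, ?_, ?_⟩
    · unfold nd; rw [if_pos u4]
    · unfold node at e3
      rw [if_neg (by omega)] at e3
      unfold nd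
      split_ifs at e3 ⊢ with c1 c2 c2
      · rw [Prod.mk.injEq] at e3
        rw [e3.1, e3.2]; rfl
      · omega
      · omega
      · rw [Prod.mk.injEq] at e3
        rw [e3.1, e3.2]
  · right
    simp only at e1 e2 q1 q2 e3
    subst e1 e2
    have hu0 : ∀ (s0 P0 : ℕ), nd h0 j s0 P0 = ⟨h0, j, s, p⟩ → True := fun _ _ _ => trivial
    -- sector, positions
    obtain ⟨s0, P0, Q0, hs0, hP0, hQ0, f1, f2, f3, f4⟩ : ∃ s0 P0 Q0, s0 < 3 ∧ P0 ≤ 2*j+1 ∧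
        Q0 ≤ 2*j+3 ∧ FF a j P0 ≤ Q0 + 1 ∧ Q0 + 1 ≤ FF a j (P0+1) ∧
        (⟨h0, j, s, p⟩ : Nd) = nd h0 j s0 P0 ∧ (⟨h0, j+1, s', p'⟩ : Nd) = nd h0 (j+1) s0 Q0 := by
      unfold node at e3
      split_ifs at e3 with c1 c2
      · -- Q = 0
        subst c1
        have hF : FF a j p = 0 := by omega
        have haj : a ≤ j := by
          by_contra hn
          rw [FF_E (by omega)] at hF; omega
        rw [FF_F haj] at hF
        have hp : p = 0 := by omega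
        subst hp
        rw [Prod.mk.injEq] at e3
        refine ⟨(s+2)%3, 2*j+1, 2*j+2, by omega, le_rfl, by omega, ?_, ?_, ?_, ?_⟩
        · rw [FF_F haj]; omega
        · rw [FF_F haj]; omega
        · unfold nd; rw [if_neg (by omega)]
          congr 1; omega
        · unfold nd; rw [if_pos (by omega), e3.1, e3.2]; rfl
      · rw [Prod.mk.injEq] at e3
        refine ⟨s, p, Q-1, u3, by omega, by omega, by omega, by omega, ?_, ?_⟩
        · unfold nd; rw [if_pos u4]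
        · unfold nd; rw [if_pos (by omega), e3.1, e3.2]
      · rw [Prod.mk.injEq] at e3
        have hQ : Q = 2*j+4 := by have := FF_le (a := a) u4; omega
        subst hQ
        refine ⟨s, p, 2*j+3, u3, by omega, by omega, by omega, by omega, ?_, ?_⟩
        · unfold nd; rw [if_pos u4]
        · unfold nd; rw [if_neg (by omega), e3.1, e3.2]
    rcases Nat.eq_zero_or_pos h0 with h00 | h00
    · subst h00
      exact ⟨s0, j+1, P0, Q0, Or.inl ⟨hs0, Or.inl ⟨j, by omega, rfl, hP0, hQ0, f1, f2, f3, f4⟩⟩⟩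
    · have h01 : h0 = 1 := by omega
      subst h01
      exact ⟨s0, 2*r+1-j, Q0, P0, Or.inr ⟨hs0, Or.inr (Or.inr ⟨j, by omega, rfl, hQ0, hP0, f1, f2,
        f4, f3⟩)⟩⟩
  · right
    simp only at e1 e2 e3 e4 e5
    subst e1 e2 e3
    have e4' : j' = j := e4
    subst e4'
    rcases e5 with e5 | e5
    · rw [Prod.mk.injEq] at e5
      refine ⟨s, j'+1, p, p, Or.inl ⟨u3, Or.inr (Or.inl ⟨rfl, by omega, by omega, Or.inl rfl, ?_,
        ?_⟩)⟩⟩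
      · unfold nd; rw [if_pos u4]
      · unfold nd; rw [if_pos u4, e5.1, e5.2]
    · refine ⟨s, j'+1, p, p+1, Or.inl ⟨u3, Or.inr (Or.inl ⟨rfl, by omega, by omega, Or.inr rfl, ?_,
        ?_⟩)⟩⟩
      · unfold nd; rw [if_pos u4]
      · unfold node at e5
        rw [if_neg (by omega)] at e5
        unfold nd
        split_ifs at e5 ⊢ with c1 c2 c2
        · rw [Prod.mk.injEq] at e5
          rw [e5.1, e5.2]; rfl
        · omega
        · omega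
        · rw [Prod.mk.injEq] at e5
          rw [e5.1, e5.2]

end Pool.Agent.R32.GT
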