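import Mathlib

set_option autoImplicit false

/-! Geometric drawings, geometric thickness. -/

namespace Pool.Agent.R32.GT

/-- A geometric drawing: the vertices are distinct points of the plane and no segment drawn for an
edge passes through a vertex other than its own endpoints. -/
def IsGeometricDrawing {V : Type} (G : SimpleGraph V) (p : V → ℝ × ℝ) : Prop :=
  Function.Injective p ∧
    ∀ u v w, G.Adj u v → p w ∈ segment ℝ (p u) (p v) → w = u ∨ w = v

/-- In the drawing `p` no two different edges with the same class `c` meet except at a shared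
endpoint. -/
def ClassesPlane {V : Type} (G : SimpleGraph V) (p : V → ℝ × ℝ) (c : Sym2 V → ℕ) : Prop :=
  ∀ u v x y, G.Adj u v → G.Adj x y → s(u, v) ≠ s(x, y) → c s(u, v) = c s(x, y) →
    ∀ z ∈ segment ℝ (p u) (p v), z ∈ segment ℝ (p x) (p y) →
      ∃ w, (w = u ∨ w = v) ∧ (w = x ∨ w = y) ∧ z = p w

/-- Some geometric drawing of `G` admits a partition of the edges into `t` classes (numbered
`0, …, t - 1`) in which no two edges of the same class cross. -/
def HasLayers {V : Type} (G : SimpleGraph V) (t : ℕ) : Prop :=
  ∃ (p : V → ℝ × ℝ) (c : Sym2 V → ℕ), IsGeometricDrawing G p ∧ (∀ e ∈ G.edgeSet, c e < t) ∧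
    ClassesPlane G p c

/-- The geometric thickness: the least `t` for which such a drawing exists. -/
noncomputable def geometricThickness {V : Type} (G : SimpleGraph V) : ℕ :=
  sInf {t | HasLayers G t}

end Pool.Agent.R32.GT
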