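import Pool.Agent.R32.GT.Upper

set_option autoImplicit false

/-! The twisted Cartesian product of `t` families of plane graphs on one point set. -/

namespace Pool.Agent.R32.GT

open Set

/-! ### digits -/

lemma dig_lt (M : ℕ) : ∀ (t : ℕ) (f : Fin t → ℕ), (∀ j, f j < M) →
    ∑ j, f j * M ^ (j : ℕ) < M ^ t := by
  intro t
  induction t with
  | zero => intro f _; simp
  | succ t ih =>
    intro f hf
    rw [Fin.sum_univ_castSucc]
    have h1 := ih (fun j => f j.castSucc) (fun j => hf _)
    have h2 := hf (Fin.last t)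
    simp only [Fin.val_castSucc, Fin.val_last] at h1 ⊢
    calc ∑ j : Fin t, f j.castSucc * M ^ (j : ℕ) + f (Fin.last t) * M ^ t
        < M ^ t + f (Fin.last t) * M ^ t := by omega
      _ = (f (Fin.last t) + 1) * M ^ t := by ring
      _ ≤ M * M ^ t := Nat.mul_le_mul_right _ h2
      _ = M ^ (t + 1) := by ring

lemma lex_lt (M : ℕ) : ∀ (t : ℕ) (f g : Fin t → ℕ) (k : Fin t), (∀ j, f j < M) →
    f k < g k → (∀ j, k < j → f j = g j) →
    ∑ j, f j * M ^ (j : ℕ) < ∑ j, g j * M ^ (j : ℕ) := by
  intro t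
  induction t with
  | zero => intro f g k; exact k.elim0
  | succ t ih =>
    intro f g k hf hk hgt
    rw [Fin.sum_univ_castSucc, Fin.sum_univ_castSucc]
    simp only [Fin.val_castSucc, Fin.val_last]
    rcases Fin.eq_castSucc_or_eq_last k with ⟨k', rfl⟩ | rfl
    · have h1 := ih (fun j => f j.castSucc) (fun j => g j.castSucc) k' (fun j => hf _) hk
        (fun j hj => hgt _ (by simpa using hj))
      have h2 := hgt (Fin.last t) (Fin.castSucc_lt_last k')
      rw [h2]
      omega
    · have h1 := dig_lt M t (fun j => f j.castSucc) (fun j => hf _)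
      calc ∑ j : Fin t, f j.castSucc * M ^ (j : ℕ) + f (Fin.last t) * M ^ t
          < M ^ t + f (Fin.last t) * M ^ t := by omega
        _ = (f (Fin.last t) + 1) * M ^ t := by ring
        _ ≤ g (Fin.last t) * M ^ t := Nat.mul_le_mul_right _ hk
        _ ≤ _ := Nat.le_add_left _ _

section prod

variable {t : ℕ} {V : Type} (M : ℕ) (x y : V → ℕ)

/-- coordinates of the vertices of the product -/
def PX (u : Fin t → V) : ℕ := ∑ j, x (u j) * M ^ (j : ℕ)

def PY (u : Fin t → V) : ℕ := ∑ j, y (u j) * M ^ ((Fin.rev j : Fin t) : ℕ)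

noncomputable def PP (u : Fin t → V) : ℝ × ℝ := ((PX M x u : ℝ), (PY M y u : ℝ))

variable {M x y}

lemma PY_eq (u : Fin t → V) : PY M y u = ∑ j, y (u (Fin.rev j)) * M ^ (j : ℕ) := by
  unfold PY
  rw [← Equiv.sum_comp (Fin.revPerm (n := t))]
  simp

lemma PX_lt (hx : ∀ v, x v < M) {u u' : Fin t → V} {k : Fin t} (hk : x (u k) < x (u' k))
    (h : ∀ j, k < j → u j = u' j) : PX M x u < PX M x u' :=
  lex_lt M t (fun j => x (u j)) (fun j => x (u' j)) k (fun j => hx _) hk
    (fun j hj => by simp only [h j hj])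

lemma PY_lt (hy : ∀ v, y v < M) {u u' : Fin t → V} {k : Fin t} (hk : y (u k) < y (u' k))
    (h : ∀ j, j < k → u j = u' j) : PY M y u < PY M y u' := by
  rw [PY_eq, PY_eq]
  refine lex_lt M t (fun j => y (u (Fin.rev j))) (fun j => y (u' (Fin.rev j))) (Fin.rev k)
    (fun j => hy _) (by simpa using hk) (fun j hj => ?_)
  simp only [h (Fin.rev j) (by rw [← Fin.rev_lt_rev]; simpa using hj)]

lemma seg_fst_le {a b z : ℝ × ℝ} {B : ℝ} (hz : z ∈ segment ℝ a b) (ha : a.1 ≤ B) (hb : b.1 ≤ B) :
    z.1 ≤ B := by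
  obtain ⟨s, r, hs, hr, hsr, rfl⟩ := hz
  simp only [Prod.fst_add, Prod.smul_fst, smul_eq_mul]
  have h1 := mul_le_mul_of_nonneg_left ha hs
  have h2 := mul_le_mul_of_nonneg_left hb hr
  have h3 : s * B + r * B = B := by rw [← add_mul, hsr, one_mul]
  linarith

lemma seg_le_fst {a b z : ℝ × ℝ} {B : ℝ} (hz : z ∈ segment ℝ a b) (ha : B ≤ a.1) (hb : B ≤ b.1) :
    B ≤ z.1 := by
  obtain ⟨s, r, hs, hr, hsr, rfl⟩ := hz
  simp only [Prod.fst_add, Prod.smul_fst, smul_eq_mul]
  have h1 := mul_le_mul_of_nonneg_left ha hs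
  have h2 := mul_le_mul_of_nonneg_left hb hr
  have h3 : s * B + r * B = B := by rw [← add_mul, hsr, one_mul]
  linarith

lemma seg_snd_le {a b z : ℝ × ℝ} {B : ℝ} (hz : z ∈ segment ℝ a b) (ha : a.2 ≤ B) (hb : b.2 ≤ B) :
    z.2 ≤ B := by
  obtain ⟨s, r, hs, hr, hsr, rfl⟩ := hz
  simp only [Prod.snd_add, Prod.smul_snd, smul_eq_mul]
  have h1 := mul_le_mul_of_nonneg_left ha hs
  have h2 := mul_le_mul_of_nonneg_left hb hr
  have h3 : s * B + r * B = B := by rw [← add_mul, hsr, one_mul]
  linarith

lemma seg_le_snd {a b z : ℝ × ℝ} {B : ℝ} (hz : z ∈ segment ℝ a b) (ha : B ≤ a.2) (hb : B ≤ b.2) :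
    B ≤ z.2 := by
  obtain ⟨s, r, hs, hr, hsr, rfl⟩ := hz
  simp only [Prod.snd_add, Prod.smul_snd, smul_eq_mul]
  have h1 := mul_le_mul_of_nonneg_left ha hs
  have h2 := mul_le_mul_of_nonneg_left hb hr
  have h3 : s * B + r * B = B := by rw [← add_mul, hsr, one_mul]
  linarith

/-- separation in the first coordinate -/
lemma sepX (hx : ∀ v, x v < M) {i k : Fin t} (hik : i < k) {u v u' v' : Fin t → V}
    (huv : ∀ j, j ≠ i → u j = v j) (huv' : ∀ j, j ≠ i → u' j = v' j)
    (hk : x (u k) < x (u' k)) (h : ∀ j, k < j → u j = u' j) (z : ℝ × ℝ)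
    (hz : z ∈ segment ℝ (PP M x y u) (PP M x y v))
    (hz' : z ∈ segment ℝ (PP M x y u') (PP M x y v')) : False := by
  have hki : k ≠ i := hik.ne'
  have e1 := huv k hki
  have e2 := huv' k hki
  have ne : ∀ j, k < j → j ≠ i := fun j hj => (hik.trans hj).ne'
  have a1 : PX M x u < PX M x u' := PX_lt hx hk h
  have a2 : PX M x u < PX M x v' := PX_lt hx (by rw [← e2]; exact hk)
    (fun j hj => (h j hj).trans (huv' j (ne j hj)))
  have a3 : PX M x v < PX M x u' := PX_lt hx (by rw [← e1]; exact hk)
    (fun j hj => (huv j (ne j hj)).symm.trans (h j hj))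
  have a4 : PX M x v < PX M x v' := PX_lt hx (by rw [← e1, ← e2]; exact hk)
    (fun j hj => ((huv j (ne j hj)).symm.trans (h j hj)).trans (huv' j (ne j hj)))
  have b1 : z.1 ≤ ((max (PX M x u) (PX M x v) : ℕ) : ℝ) :=
    seg_fst_le hz (by simp only [PP]; exact_mod_cast le_max_left _ _)
      (by simp only [PP]; exact_mod_cast le_max_right _ _)
  have b2 : ((min (PX M x u') (PX M x v') : ℕ) : ℝ) ≤ z.1 :=
    seg_le_fst hz' (by simp only [PP]; exact_mod_cast min_le_left _ _)
      (by simp only [PP]; exact_mod_cast min_le_right _ _)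
  have b3 : ((min (PX M x u') (PX M x v') : ℕ) : ℝ) ≤ ((max (PX M x u) (PX M x v) : ℕ) : ℝ) :=
    b2.trans b1
  have b4 : min (PX M x u') (PX M x v') ≤ max (PX M x u) (PX M x v) := by exact_mod_cast b3
  omega

lemma sepY (hy : ∀ v, y v < M) {i k : Fin t} (hik : k < i) {u v u' v' : Fin t → V}
    (huv : ∀ j, j ≠ i → u j = v j) (huv' : ∀ j, j ≠ i → u' j = v' j)
    (hk : y (u k) < y (u' k)) (h : ∀ j, j < k → u j = u' j) (z : ℝ × ℝ)
    (hz : z ∈ segment ℝ (PP M x y u) (PP M x y v))
    (hz' : z ∈ segment ℝ (PP M x y u') (PP M x y v')) : False := by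
  have hki : k ≠ i := hik.ne
  have e1 := huv k hki
  have e2 := huv' k hki
  have ne : ∀ j, j < k → j ≠ i := fun j hj => (hj.trans hik).ne
  have a1 : PY M y u < PY M y u' := PY_lt hy hk h
  have a2 : PY M y u < PY M y v' := PY_lt hy (by rw [← e2]; exact hk)
    (fun j hj => (h j hj).trans (huv' j (ne j hj)))
  have a3 : PY M y v < PY M y u' := PY_lt hy (by rw [← e1]; exact hk)
    (fun j hj => (huv j (ne j hj)).symm.trans (h j hj))
  have a4 : PY M y v < PY M y v' := PY_lt hy (by rw [← e1, ← e2]; exact hk)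
    (fun j hj => ((huv j (ne j hj)).symm.trans (h j hj)).trans (huv' j (ne j hj)))
  have b1 : z.2 ≤ ((max (PY M y u) (PY M y v) : ℕ) : ℝ) :=
    seg_snd_le hz (by simp only [PP]; exact_mod_cast le_max_left _ _)
      (by simp only [PP]; exact_mod_cast le_max_right _ _)
  have b2 : ((min (PY M y u') (PY M y v') : ℕ) : ℝ) ≤ z.2 :=
    seg_le_snd hz' (by simp only [PP]; exact_mod_cast min_le_left _ _)
      (by simp only [PP]; exact_mod_cast min_le_right _ _)
  have b3 : ((min (PY M y u') (PY M y v') : ℕ) : ℝ) ≤ ((max (PY M y u) (PY M y v) : ℕ) : ℝ) :=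
    b2.trans b1
  have b4 : min (PY M y u') (PY M y v') ≤ max (PY M y u) (PY M y v) := by exact_mod_cast b3
  omega

/-- segments of different contexts are disjoint -/
lemma sep (hx : ∀ v, x v < M) (hy : ∀ v, y v < M) (hxi : Function.Injective x)
    (hyi : Function.Injective y) {i : Fin t} {u v u' v' : Fin t → V}
    (huv : ∀ j, j ≠ i → u j = v j) (huv' : ∀ j, j ≠ i → u' j = v' j) (z : ℝ × ℝ)
    (hz : z ∈ segment ℝ (PP M x y u) (PP M x y v))
    (hz' : z ∈ segment ℝ (PP M x y u') (PP M x y v')) : ∀ j, j ≠ i → u j = u' j := by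
  classical
  by_contra hcon
  push Not at hcon
  obtain ⟨j0, hj0, hne0⟩ := hcon
  let D : Finset (Fin t) := Finset.univ.filter (fun j => j ≠ i ∧ u j ≠ u' j)
  have hD : ∀ j, j ∈ D ↔ j ≠ i ∧ u j ≠ u' j := fun j => by simp [D]
  have hne : D.Nonempty := ⟨j0, (hD j0).2 ⟨hj0, hne0⟩⟩
  by_cases hbig : i < D.max' hne
  · set k := D.max' hne with hk
    have hkD := (hD k).1 (D.max'_mem hne)
    have habove : ∀ j, k < j → u j = u' j := by
      intro j hj
      by_contra hn
      have : j ∈ D := (hD j).2 ⟨(hbig.trans hj).ne', hn⟩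
      exact absurd (D.le_max' j this) (not_le.2 hj)
    rcases lt_trichotomy (x (u k)) (x (u' k)) with h | h | h
    · exact sepX hx hbig huv huv' h habove z hz hz'
    · exact hkD.2 (hxi h)
    · exact sepX hx hbig huv' huv h (fun j hj => (habove j hj).symm) z hz' hz
  · have hlt : ∀ j ∈ D, j < i := by
      intro j hj
      rcases lt_trichotomy j i with h | h | h
      · exact h
      · exact absurd h ((hD j).1 hj).1
      · exact absurd (lt_of_lt_of_le h (D.le_max' j hj)) hbig
    set k := D.min' hne with hk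
    have hkD := (hD k).1 (D.min'_mem hne)
    have hki := hlt k (D.min'_mem hne)
    have hbelow : ∀ j, j < k → u j = u' j := by
      intro j hj
      by_contra hn
      have : j ∈ D := (hD j).2 ⟨(hj.trans hki).ne, hn⟩
      exact absurd (D.min'_le j this) (not_le.2 hj)
    rcases lt_trichotomy (y (u k)) (y (u' k)) with h | h | h
    · exact sepY hy hki huv huv' h hbelow z hz hz'
    · exact hkD.2 (hyi h)
    · exact sepY hy hki huv' huv h (fun j hj => (hbelow j hj).symm) z hz' hz

/-- base position -/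
def bpos (x y : V → ℕ) (v : V) : ℝ × ℝ := ((x v : ℝ), (y v : ℝ))

lemma PP_affine (hM : 0 < M) (i : Fin t) (u : Fin t → V) :
    ∃ (α β A B : ℝ), 0 < α ∧ 0 < β ∧ ∀ w : Fin t → V, (∀ j, j ≠ i → w j = u j) →
      PP M x y w = (α * (x (w i) : ℝ) + A, β * (y (w i) : ℝ) + B) := by
  classical
  refine ⟨(M : ℝ) ^ (i : ℕ), (M : ℝ) ^ ((Fin.rev i : Fin t) : ℕ),
    ∑ j ∈ Finset.univ.erase i, (x (u j) : ℝ) * (M : ℝ) ^ (j : ℕ),
    ∑ j ∈ Finset.univ.erase i, (y (u j) : ℝ) * (M : ℝ) ^ ((Fin.rev j : Fin t) : ℕ),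
    by positivity, by positivity, fun w hw => ?_⟩
  unfold PP PX PY
  rw [← Finset.add_sum_erase _ _ (Finset.mem_univ i),
    ← Finset.add_sum_erase _ _ (Finset.mem_univ i)]
  push_cast
  congr 1
  · rw [mul_comm]
    congr 1
    apply Finset.sum_congr rfl
    intro j hj
    rw [hw j (Finset.ne_of_mem_erase hj)]
  · rw [mul_comm]
    congr 1
    apply Finset.sum_congr rfl
    intro j hj
    rw [hw j (Finset.ne_of_mem_erase hj)]

lemma unaffine {α β A B : ℝ} (hα : 0 < α) (hβ : 0 < β) {a b z : ℝ × ℝ}
    (hz : z ∈ segment ℝ (α * a.1 + A, β * a.2 + B) (α * b.1 + A, β * b.2 + B)) :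
    (((z.1 - A) / α, (z.2 - B) / β) : ℝ × ℝ) ∈ segment ℝ a b := by
  obtain ⟨s, r, hs, hr, hsr, rfl⟩ := hz
  refine ⟨s, r, hs, hr, hsr, ?_⟩
  have hs' : s = 1 - r := by linarith
  subst hs'
  ext
  · simp only [Prod.fst_add, Prod.smul_fst, smul_eq_mul, Prod.smul_mk, Prod.mk_add_mk]
    field_simp
    ring
  · simp only [Prod.snd_add, Prod.smul_snd, smul_eq_mul, Prod.smul_mk, Prod.mk_add_mk]
    field_simp
    ring

variable (c : V → Fin t) (H : Fin t → SimpleGraph V)

/-- the colour used in direction `i` at `u` -/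
def col [NeZero t] (i : Fin t) (u : Fin t → V) : Fin t :=
  i - ∑ j ∈ Finset.univ.erase i, c (u j)

lemma col_congr [NeZero t] {i : Fin t} {u v : Fin t → V} (h : ∀ j, j ≠ i → u j = v j) :
    col c i u = col c i v := by
  unfold col
  congr 1
  apply Finset.sum_congr rfl
  intro j hj
  rw [h j (Finset.ne_of_mem_erase hj)]

/-- the twisted product -/
def TP [NeZero t] : SimpleGraph (Fin t → V) where
  Adj u v := ∃ i, (∀ j, j ≠ i → u j = v j) ∧ (H (col c i u)).Adj (u i) (v i)
  symm := ⟨fun u v ⟨i, h1, h2⟩ => ⟨i, fun j hj => (h1 j hj).symm, by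
    rw [← col_congr c h1]; exact h2.symm⟩⟩
  loopless := ⟨fun u ⟨_, _, h2⟩ => h2.ne rfl⟩

open Classical in
/-- the class of an edge: the coordinate in which the ends differ -/
noncomputable def cls : Sym2 (Fin t → V) → ℕ :=
  Sym2.lift ⟨fun u v => ∑ i : Fin t, if u i = v i then 0 else (i : ℕ), fun u v => by
    apply Finset.sum_congr rfl
    intro i _
    simp only [eq_comm]⟩

lemma cls_eq {u v : Fin t → V} {i : Fin t} (h : ∀ j, j ≠ i → u j = v j) (hne : u i ≠ v i) :
    cls s(u, v) = i := by
  classical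
  unfold cls
  rw [Sym2.lift_mk]
  simp only
  rw [Finset.sum_eq_single i]
  · rw [if_neg hne]
  · intro j _ hj
    rw [if_pos (h j hj)]
  · intro h; exact absurd (Finset.mem_univ i) h

theorem TP_layers [NeZero t] (hx : ∀ v, x v < M) (hy : ∀ v, y v < M)
    (hxi : Function.Injective x) (hyi : Function.Injective y)
    (hp : ∀ a, Plane (H a) (bpos x y)) : HasLayers (TP c H) t := by
  classical
  have hinj : Function.Injective (PP (t := t) M x y) := by
    intro u u' h
    by_contra hne
    have : ∃ i, u i ≠ u' i := Function.ne_iff.1 hne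
    obtain ⟨i, hi⟩ := this
    have hM : 0 < M := lt_of_le_of_lt (Nat.zero_le _) (hx (u i))
    have key : ∀ j, j ≠ i → u j = u' j :=
      sep hx hy hxi hyi (v := u) (v' := u') (fun _ _ => rfl) (fun _ _ => rfl)
        (PP M x y u) (left_mem_segment _ _ _) (by rw [h]; exact left_mem_segment _ _ _)
    obtain ⟨α, β, A, B, hα, hβ, hPP⟩ := PP_affine (x := x) (y := y) hM i u
    have e1 := hPP u (fun _ _ => rfl)
    have e2 := hPP u' (fun j hj => (key j hj).symm)
    rw [e1, e2, Prod.mk.injEq] at h
    have h3 : (x (u i) : ℝ) = x (u' i) := by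
      have := h.1
      have h4 : α * (x (u i) : ℝ) = α * (x (u' i) : ℝ) := by linarith
      exact mul_left_cancel₀ hα.ne' h4
    exact hi (hxi (by exact_mod_cast h3))
  refine ⟨PP M x y, cls, ⟨hinj, ?_⟩, ?_, ?_⟩
  · rintro u v w ⟨i, h1, h2⟩ hw
    have hM : 0 < M := lt_of_le_of_lt (Nat.zero_le _) (hx (u i))
    have key := sep hx hy hxi hyi (i := i) h1 (fun _ _ => rfl) (PP M x y w) hw
      (left_mem_segment ℝ (PP M x y w) (PP M x y w))
    obtain ⟨α, β, A, B, hα, hβ, hPP⟩ := PP_affine (x := x) (y := y) hM i u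
    have e1 := hPP u (fun _ _ => rfl)
    have e2 := hPP v (fun j hj => (h1 j hj).symm)
    have e3 := hPP w (fun j hj => (key j hj).symm)
    rw [e1, e2, e3] at hw
    have h3 := unaffine hα hβ (a := bpos x y (u i)) (b := bpos x y (v i)) hw
    have h4 : (((α * (x (w i) : ℝ) + A, β * (y (w i) : ℝ) + B) : ℝ × ℝ).1 - A) / α
        = (x (w i) : ℝ) := by
      field_simp; ring
    have h5 : (((α * (x (w i) : ℝ) + A, β * (y (w i) : ℝ) + B) : ℝ × ℝ).2 - B) / β
        = (y (w i) : ℝ) := by
      field_simp; ring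
    rw [h4, h5] at h3
    rcases (hp _).avoid _ _ (w i) h2 h3 with h | h
    · left
      funext j
      by_cases hj : j = i
      · subst hj; exact h
      · exact (key j hj).symm
    · right
      funext j
      by_cases hj : j = i
      · subst hj; exact h
      · exact (key j hj).symm.trans (h1 j hj)
  · intro e
    induction e using Sym2.ind with
    | _ u v =>
      rintro ⟨i, h1, h2⟩
      rw [cls_eq h1 h2.ne]
      exact i.2
  · rintro u v u' v' ⟨i, h1, h2⟩ ⟨i', h1', h2'⟩ hne hcl z hz hz'
    rw [cls_eq h1 h2.ne, cls_eq h1' h2'.ne] at hcl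
    have hii : i = i' := Fin.ext hcl
    subst hii
    have hM : 0 < M := lt_of_le_of_lt (Nat.zero_le _) (hx (u i))
    have key := sep hx hy hxi hyi (i := i) h1 h1' z hz hz'
    obtain ⟨α, β, A, B, hα, hβ, hPP⟩ := PP_affine (x := x) (y := y) hM i u
    have e1 := hPP u (fun _ _ => rfl)
    have e2 := hPP v (fun j hj => (h1 j hj).symm)
    have e3 := hPP u' (fun j hj => (key j hj).symm)
    have e4 := hPP v' (fun j hj => (h1' j hj).symm.trans (key j hj).symm)
    rw [e1, e2] at hz
    rw [e3, e4] at hz'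
    have h3 := unaffine hα hβ (a := bpos x y (u i)) (b := bpos x y (v i)) hz
    have h3' := unaffine hα hβ (a := bpos x y (u' i)) (b := bpos x y (v' i)) hz'
    rw [col_congr c (u := u') (v := u) (fun j hj => (key j hj).symm)] at h2'
    obtain ⟨w0, hw, hw', hzw⟩ := (hp _).cross (u i) (v i) (u' i) (v' i) h2 h2' (by
      intro e
      apply hne
      rcases Sym2.eq_iff.1 e with ⟨ea, eb⟩ | ⟨ea, eb⟩
      · have f1 : u = u' := by
          funext j
          by_cases hj : j = i
          · subst hj; exact ea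
          · exact key j hj
        have f2 : v = v' := by
          funext j
          by_cases hj : j = i
          · subst hj; exact eb
          · exact ((h1 j hj).symm.trans (key j hj)).trans (h1' j hj)
        rw [f1, f2]
      · have f1 : u = v' := by
          funext j
          by_cases hj : j = i
          · subst hj; exact ea
          · exact (key j hj).trans (h1' j hj)
        have f2 : v = u' := by
          funext j
          by_cases hj : j = i
          · subst hj; exact eb
          · exact (h1 j hj).symm.trans (key j hj)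
        rw [f1, f2, Sym2.eq_swap]) _ h3 h3'
    have hzz : z = (α * (x w0 : ℝ) + A, β * (y w0 : ℝ) + B) := by
      have a1 : (z.1 - A) / α = (x w0 : ℝ) := congrArg Prod.fst hzw
      have a2 : (z.2 - B) / β = (y w0 : ℝ) := congrArg Prod.snd hzw
      rw [div_eq_iff hα.ne'] at a1
      rw [div_eq_iff hβ.ne'] at a2
      ext
      · simp only; linarith
      · simp only; linarith
    refine ⟨Function.update u i w0, ?_, ?_, ?_⟩
    · rcases hw with rfl | rfl
      · left; simp
      · right
        funext j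
        by_cases hj : j = i
        · subst hj; simp
        · rw [Function.update_of_ne hj]; exact h1 j hj
    · rcases hw' with rfl | rfl
      · left
        funext j
        by_cases hj : j = i
        · subst hj; simp
        · rw [Function.update_of_ne hj]; exact key j hj
      · right
        funext j
        by_cases hj : j = i
        · subst hj; simp
        · rw [Function.update_of_ne hj]; exact (key j hj).trans (h1' j hj)
    · rw [hPP _ (fun j hj => by rw [Function.update_of_ne hj]), Function.update_self, hzz]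

theorem TP_degree [NeZero t] [Finite V]
    (hd : ∀ a v, ((H a).neighborSet v).ncard = if c v = a then 5 else 6) (u : Fin t → V) :
    ((TP c H).neighborSet u).ncard = 6 * t - 1 := by
  classical
  let f : (Σ i : Fin t, (H (col c i u)).neighborSet (u i)) → (TP c H).neighborSet u :=
    fun q => ⟨Function.update u q.1 q.2.1, q.1, fun j hj => by
      rw [Function.update_of_ne hj], by
      rw [Function.update_self]; exact q.2.2⟩
  have hf : Function.Bijective f := by
    constructor
    · rintro ⟨i, b, hb⟩ ⟨i', b', hb'⟩ h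
      have h0 : Function.update u i b = Function.update u i' b' := congrArg Subtype.val h
      have hne : b ≠ u i := (SimpleGraph.ne_of_adj _ hb).symm
      have hii : i = i' := by
        by_contra hn
        have := congrFun h0 i
        rw [Function.update_self, Function.update_of_ne hn] at this
        exact hne this
      subst hii
      have := congrFun h0 i
      rw [Function.update_self, Function.update_self] at this
      subst this
      rfl
    · rintro ⟨v, i, h1, h2⟩
      refine ⟨⟨i, v i, h2⟩, ?_⟩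
      apply Subtype.ext
      show Function.update u i (v i) = v
      funext j
      by_cases hj : j = i
      · subst hj; simp
      · rw [Function.update_of_ne hj]; exact h1 j hj
  have hcard := Nat.card_eq_of_bijective f hf
  rw [← Nat.card_coe_set_eq, ← hcard, Nat.card_sigma]
  have h1 : ∀ i : Fin t, Nat.card ((H (col c i u)).neighborSet (u i)) =
      if ∑ j, c (u j) = i then 5 else 6 := by
    intro i
    rw [Nat.card_coe_set_eq, hd]
    have : c (u i) = col c i u ↔ ∑ j, c (u j) = i := by
      unfold col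
      rw [← Finset.add_sum_erase _ _ (Finset.mem_univ i), eq_sub_iff_add_eq]
    simp only [this]
  rw [Finset.sum_congr rfl (fun i _ => h1 i)]
  have h2 : ∑ i : Fin t, (if ∑ j, c (u j) = i then 5 else 6) +
      ∑ i : Fin t, (if ∑ j, c (u j) = i then 1 else 0) = 6 * t := by
    rw [← Finset.sum_add_distrib, Finset.sum_congr rfl (g := fun _ => 6)]
    · simp [mul_comm]
    · intro i _
      split_ifs <;> rfl
  rw [Finset.sum_ite_eq] at h2
  simp only [Finset.mem_univ, if_true] at h2
  omega

end prod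

end Pool.Agent.R32.GT
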