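import Pool.Agent.R32.GT.BaseCross
import Pool.Agent.R32.GT.Prod

set_option autoImplicit false

/-!
# The base family: the plane graphs and their degrees
-/

namespace Pool.Agent.R32.GT

open Set

/-! ### planarity of the triangulation -/

def Edg (a r : ℕ) (u v : Nd) : Prop :=
  (∃ s h j P, Lat r s h j P u v) ∨ (∃ s R P Q, Rad a r s R P Q u v)

lemma Edg.vert {a r : ℕ} {u v w : Nd} (h : Edg a r u v) (hw : OK r w)
    (hz : qq r w ∈ segment ℝ (qq r u) (qq r v)) : w = u ∨ w = v := by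
  rcases h with ⟨s, h, j, P, hL⟩ | ⟨s, R, P, Q, hR⟩
  · exact hL.vert hw hz
  · exact hR.vert hw hz

lemma Edg.cross {a r : ℕ} {u v u' v' : Nd} (h : Edg a r u v) (h' : Edg a r u' v') {z : ℝ × ℝ}
    (hz : z ∈ segment ℝ (qq r u) (qq r v)) (hz' : z ∈ segment ℝ (qq r u') (qq r v')) :
    (u = u' ∧ v = v') ∨ ∃ w, (w = u ∨ w = v) ∧ (w = u' ∨ w = v') ∧ z = qq r w := by
  rcases h with ⟨s, h, j, P, hL⟩ | ⟨s, R, P, Q, hR⟩
  · rcases h' with ⟨s', h', j', P', hL'⟩ | ⟨s', R', P', Q', hR'⟩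
    · exact LL hL hL' hz hz'
    · exact Or.inr (LR hL hR' hz hz')
  · rcases h' with ⟨s', h', j', P', hL'⟩ | ⟨s', R', P', Q', hR'⟩
    · obtain ⟨w, w1, w2, w3⟩ := LR hL' hR hz' hz
      exact Or.inr ⟨w, w2, w1, w3⟩
    · exact RRad hR hR' hz hz'

lemma St_Edg {a r : ℕ} {u v : Nd} (hu : OK r u) (hv : OK r v) (h : St a r u v ∨ St a r v u) :
    Edg a r u v ∨ Edg a r v u := by
  rcases h with h | h
  · rcases St_rep hu hv h with h | ⟨s, R, P, Q, h | h⟩
    · exact Or.inl (Or.inl h)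
    · exact Or.inl (Or.inr ⟨s, R, P, Q, h⟩)
    · exact Or.inr (Or.inr ⟨s, R, P, Q, h⟩)
  · rcases St_rep hv hu h with h | ⟨s, R, P, Q, h | h⟩
    · exact Or.inr (Or.inl h)
    · exact Or.inr (Or.inr ⟨s, R, P, Q, h⟩)
    · exact Or.inl (Or.inr ⟨s, R, P, Q, h⟩)

/-- the vertex type -/
abbrev BV (t : ℕ) := {v : Nd // OK (2*t) v}

/-- matched vertices -/
def Md (t : ℕ) (u : Nd) : Prop := u.j < 2*t ∨ (¬ (u.p < t) ∧ ¬ (2*t ≤ u.p ∧ u.p < 3*t))

/-- the partner of a matched vertex -/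
def mate (t : ℕ) (u : Nd) : Nd :=
  if u.j < 2*t then
    if u.p = 0 then (if u.j % 2 = 0 then ⟨u.h, u.j+1, u.s, 0⟩ else ⟨u.h, u.j-1, u.s, 0⟩)
    else if u.p % 2 = 1 then ⟨u.h, u.j, u.s, u.p+1⟩ else ⟨u.h, u.j, u.s, u.p-1⟩
  else ⟨1 - u.h, u.j, u.s, u.p⟩

lemma mate_ok {t : ℕ} {u : Nd} (hu : OK (2*t) u) : OK (2*t) (mate t u) := by
  obtain ⟨h, j, s, p⟩ := u
  obtain ⟨h1, h2, h3, h4⟩ := hu
  simp only at h1 h2 h3 h4
  unfold mate OK
  simp only
  split_ifs <;> simp only <;> refine ⟨?_, ?_, ?_, ?_⟩ <;> omega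

lemma mate_md {t : ℕ} {u : Nd} (hu : OK (2*t) u) (hm : Md t u) : Md t (mate t u) := by
  obtain ⟨h, j, s, p⟩ := u
  obtain ⟨h1, h2, h3, h4⟩ := hu
  unfold Md at hm
  simp only at h1 h2 h3 h4 hm
  unfold mate Md
  simp only
  split_ifs <;> simp only <;> omega

lemma mate_mate {t : ℕ} {u : Nd} (hu : OK (2*t) u) : mate t (mate t u) = u := by
  obtain ⟨h, j, s, p⟩ := u
  obtain ⟨h1, h2, h3, h4⟩ := hu
  simp only at h1 h2 h3 h4
  by_cases c1 : j < 2*t
  · by_cases c2 : p = 0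
    · subst c2
      by_cases c3 : j % 2 = 0
      · have e : mate t ⟨h, j, s, 0⟩ = ⟨h, j+1, s, 0⟩ := by
          unfold mate; simp only [if_pos c1, if_true, if_pos c3]
        rw [e]
        unfold mate
        simp only [if_pos (show j + 1 < 2*t by omega), if_true,
          if_neg (show ¬ ((j+1) % 2 = 0) by omega), Nat.add_sub_cancel]
      · have e : mate t ⟨h, j, s, 0⟩ = ⟨h, j-1, s, 0⟩ := by
          unfold mate; simp only [if_pos c1, if_true, if_neg c3]
        rw [e]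
        unfold mate
        simp only [if_pos (show j - 1 < 2*t by omega), if_true,
          if_pos (show (j-1) % 2 = 0 by omega), Nd.mk.injEq, true_and, and_true]
        omega
    · by_cases c3 : p % 2 = 1
      · have e : mate t ⟨h, j, s, p⟩ = ⟨h, j, s, p+1⟩ := by
          unfold mate; simp only [if_pos c1, if_neg c2, if_pos c3]
        rw [e]
        unfold mate
        simp only [if_pos c1, if_neg (show ¬ (p + 1 = 0) by omega),
          if_neg (show ¬ ((p+1) % 2 = 1) by omega), Nat.add_sub_cancel]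
      · have e : mate t ⟨h, j, s, p⟩ = ⟨h, j, s, p-1⟩ := by
          unfold mate; simp only [if_pos c1, if_neg c2, if_neg c3]
        rw [e]
        unfold mate
        simp only [if_pos c1, if_neg (show ¬ (p - 1 = 0) by omega),
          if_pos (show (p-1) % 2 = 1 by omega), Nd.mk.injEq, true_and]
        omega
  · have e : mate t ⟨h, j, s, p⟩ = ⟨1-h, j, s, p⟩ := by
      unfold mate; simp only [if_neg c1]
    rw [e]
    unfold mate
    simp only [if_neg c1, Nd.mk.injEq, true_and, and_true]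
    omega

lemma mate_mem {t : ℕ} {u : Nd} (hu : OK (2*t) u) : mate t u ∈ NT 0 (2*t) u := by
  refine ⟨mate_ok hu, ?_⟩
  obtain ⟨h, j, s, p⟩ := u
  obtain ⟨h1, h2, h3, h4⟩ := hu
  simp only at h1 h2 h3 h4
  by_cases c1 : j < 2*t
  · by_cases c2 : p = 0
    · subst c2
      by_cases c3 : j % 2 = 0
      · have e : mate t ⟨h, j, s, 0⟩ = ⟨h, j+1, s, 0⟩ := by
          unfold mate; simp only [if_pos c1, if_true, if_pos c3]
        rw [e]
        left; right; left
        refine ⟨rfl, rfl, 1, ?_, ?_, ?_⟩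
        · simp only; rw [FF_F (Nat.zero_le _)]; omega
        · simp only; rw [FF_F (Nat.zero_le _)]; omega
        · simp only; unfold node; rw [if_neg (by omega), if_pos (by omega)]
      · have e : mate t ⟨h, j, s, 0⟩ = ⟨h, j-1, s, 0⟩ := by
          unfold mate; simp only [if_pos c1, if_true, if_neg c3]
        rw [e]
        right; right; left
        refine ⟨rfl, ?_, 1, ?_, ?_, ?_⟩
        · simp only; omega
        · simp only; rw [FF_F (Nat.zero_le _)]; omega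
        · simp only; rw [FF_F (Nat.zero_le _)]; omega
        · simp only; unfold node; rw [if_neg (by omega), if_pos (by omega)]
    · by_cases c3 : p % 2 = 1
      · have e : mate t ⟨h, j, s, p⟩ = ⟨h, j, s, p+1⟩ := by
          unfold mate; simp only [if_pos c1, if_neg c2, if_pos c3]
        rw [e]
        left; left
        refine ⟨rfl, rfl, ?_⟩
        simp only; unfold node; rw [if_neg (by omega), if_pos (by omega)]; rfl
      · have e : mate t ⟨h, j, s, p⟩ = ⟨h, j, s, p-1⟩ := by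
          unfold mate; simp only [if_pos c1, if_neg c2, if_neg c3]
        rw [e]
        right; left
        refine ⟨rfl, rfl, ?_⟩
        simp only; unfold node; rw [if_neg (by omega), if_pos (by omega), Prod.mk.injEq]
        exact ⟨rfl, by omega⟩
  · have e : mate t ⟨h, j, s, p⟩ = ⟨1-h, j, s, p⟩ := by
      unfold mate; simp only [if_neg c1]
    rw [e]
    have hj : j = 2*t := by omega
    rcases Nat.eq_zero_or_pos h with h0 | h0
    · left; right; right
      exact ⟨h0, by simp only; omega, hj, hj, Or.inl rfl⟩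
    · right; right; right
      exact ⟨by simp only; omega, by simp only; omega, hj, hj, Or.inl rfl⟩

lemma St_irrefl {a r : ℕ} {u : Nd} (hu : OK r u) : ¬ St a r u u := by
  obtain ⟨h1, h2, h3, h4⟩ := hu
  rintro (⟨-, -, e⟩ | ⟨-, e, -⟩ | ⟨e, e', -⟩)
  · exact (node_ne h3 h4).1 e.symm
  · omega
  · omega

/-- the graph of colour `a` -/
def HH (t a : ℕ) : SimpleGraph (BV t) where
  Adj u w := (St a (2*t) u.1 w.1 ∨ St a (2*t) w.1 u.1) ∧ ¬ (a = 0 ∧ Md t u.1 ∧ w.1 = mate t u.1)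
  symm := ⟨by
    rintro ⟨u, hu⟩ ⟨w, hw⟩ ⟨h1, h2⟩
    refine ⟨h1.symm, ?_⟩
    rintro ⟨ha, hm, rfl⟩
    exact h2 ⟨ha, mate_md hw hm, (mate_mate hw).symm⟩⟩
  loopless := ⟨by
    rintro ⟨u, hu⟩ ⟨h1 | h1, -⟩ <;> exact St_irrefl hu h1⟩

theorem HH_plane (t a : ℕ) : Plane (HH t a) (fun v => qq (2*t) v.1) where
  inj := by
    intro u v h
    exact Subtype.ext (qq_inj u.2 v.2 h)
  avoid := by
    rintro u v w ⟨h, -⟩ hz
    rcases St_Edg u.2 v.2 h with h | h
    · rcases h.vert w.2 hz with e | e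
      · exact Or.inl (Subtype.ext e)
      · exact Or.inr (Subtype.ext e)
    · rw [segment_symm] at hz
      rcases h.vert w.2 hz with e | e
      · exact Or.inr (Subtype.ext e)
      · exact Or.inl (Subtype.ext e)
  cross := by
    rintro u v x y ⟨h, -⟩ ⟨h', -⟩ hne z hz hz'
    have key : ∀ u v x y : BV t, Edg a (2*t) u.1 v.1 → Edg a (2*t) x.1 y.1 → s(u, v) ≠ s(x, y) →
        z ∈ segment ℝ (qq (2*t) u.1) (qq (2*t) v.1) → z ∈ segment ℝ (qq (2*t) x.1) (qq (2*t) y.1) →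
        ∃ w, (w = u ∨ w = v) ∧ (w = x ∨ w = y) ∧ z = qq (2*t) w.1 := by
      intro u v x y h h' hne hz hz'
      rcases h.cross h' hz hz' with ⟨e1, e2⟩ | ⟨w, w1, w2, w3⟩
      · exact absurd (by rw [Subtype.ext e1, Subtype.ext e2]) hne
      · have hw : OK (2*t) w := by
          rcases w1 with rfl | rfl
          · exact u.2
          · exact v.2
        refine ⟨⟨w, hw⟩, ?_, ?_, w3⟩
        · rcases w1 with w1 | w1
          · exact Or.inl (Subtype.ext w1)
          · exact Or.inr (Subtype.ext w1)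
        · rcases w2 with w2 | w2
          · exact Or.inl (Subtype.ext w2)
          · exact Or.inr (Subtype.ext w2)
    rcases St_Edg u.2 v.2 h with h | h <;> rcases St_Edg x.2 y.2 h' with h' | h'
    · exact key u v x y h h' hne hz hz'
    · rw [segment_symm] at hz'
      rw [Sym2.eq_swap (a := x)] at hne
      obtain ⟨w, w1, w2, w3⟩ := key u v y x h h' hne hz hz'
      exact ⟨w, w1, w2.symm, w3⟩
    · rw [segment_symm] at hz
      rw [Sym2.eq_swap (a := u)] at hne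
      obtain ⟨w, w1, w2, w3⟩ := key v u x y h h' hne hz hz'
      exact ⟨w, w1.symm, w2, w3⟩
    · rw [segment_symm] at hz hz'
      rw [Sym2.eq_swap (a := u), Sym2.eq_swap (a := x)] at hne
      obtain ⟨w, w1, w2, w3⟩ := key v u y x h h' hne hz hz'
      exact ⟨w, w1.symm, w2.symm, w3⟩

/-- the colour of a vertex -/
def cc (t : ℕ) (u : Nd) : ℕ :=
  if u.j = 2*t then (if u.p < t then u.p else if 2*t ≤ u.p ∧ u.p < 3*t then u.p - 2*t else 0)
  else 0

lemma cc_lt {t : ℕ} (ht : 0 < t) (u : Nd) : cc t u < t := by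
  unfold cc; split_ifs <;> omega

lemma NT_fin {a r : ℕ} {u : Nd} (hu : OK r u) : (NT a r u).Finite := by
  rw [NT_eq hu]
  exact ((SL_fin u).union (SX_fin r u)).union ((SU_fin a r u).union (SD_fin a u))

theorem HH_degree {t a : ℕ} (ha : a < t) (u : BV t) :
    ((HH t a).neighborSet u).ncard = if cc t u.1 = a then 5 else 6 := by
  obtain ⟨u, hu⟩ := u
  rw [← Set.ncard_image_of_injective _ (Subtype.val_injective)]
  have hd := deg_NT (a := a) (r := 2*t) (by omega) hu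
  by_cases hm : a = 0 ∧ Md t u
  · have e : Subtype.val '' ((HH t a).neighborSet ⟨u, hu⟩) = NT a (2*t) u \ {mate t u} := by
      ext w
      simp only [mem_image, SimpleGraph.mem_neighborSet, HH, NT, Subtype.exists, exists_and_right,
        exists_eq_right, mem_sdiff, mem_ofPred_eq, mem_singleton_iff]
      constructor
      · rintro ⟨⟨hw, h1⟩, h2⟩
        exact ⟨⟨hw, h1⟩, fun e => h2 ⟨hm.1, hm.2, e⟩⟩
      · rintro ⟨⟨hw, h1⟩, h2⟩
        exact ⟨⟨hw, h1⟩, fun e => h2 e.2.2⟩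
    rw [e, Set.ncard_sdiff_singleton_of_mem (by rw [hm.1]; exact mate_mem hu), hd]
    obtain ⟨rfl, hm⟩ := hm
    obtain ⟨h1, h2, h3, h4⟩ := hu
    unfold Md at hm
    unfold cc
    simp only
    split_ifs <;> omega
  · have e : Subtype.val '' ((HH t a).neighborSet ⟨u, hu⟩) = NT a (2*t) u := by
      ext w
      simp only [mem_image, SimpleGraph.mem_neighborSet, HH, NT, Subtype.exists, exists_and_right,
        exists_eq_right, mem_ofPred_eq]
      constructor
      · rintro ⟨⟨hw, h1⟩, h2⟩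
        exact ⟨hw, h1⟩
      · rintro ⟨hw, h1⟩
        exact ⟨⟨hw, h1⟩, fun e => hm ⟨e.1, e.2.1⟩⟩
    rw [e, hd]
    obtain ⟨h1, h2, h3, h4⟩ := hu
    unfold Md at hm
    unfold cc
    simp only
    split_ifs <;> omega

/-! ### integer coordinates in general position -/

lemma qq_nat {r : ℕ} {u : Nd} (hu : OK r u) : ∃ X Y : ℕ, X < 6*r+7 ∧ Y < 6*r+7 ∧
    qq r u = ((X:ℝ) - (2*r+2), (Y:ℝ) - (2*r+2)) := by
  obtain ⟨h, j, s, p⟩ := u
  obtain ⟨h1, h2, h3, h4⟩ := hu
  simp only at h1 h2 h3 h4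
  have hR : RR r h j ≤ 2*r+2 := by unfold RR; split_ifs <;> omega
  have hp := (RR_pos (r := r) (h := h) h2).1
  unfold qq
  simp only
  generalize RR r h j = ρ at *
  interval_cases s
  · obtain ⟨X, hX⟩ : ∃ X : ℕ, X + ρ = 2*r+2 + p := ⟨2*r+2+p-ρ, by omega⟩
    obtain ⟨Y, hY⟩ : ∃ Y : ℕ, Y + ρ = 2*r+2 := ⟨2*r+2-ρ, by omega⟩
    refine ⟨X, Y, by omega, by omega, ?_⟩
    have hX' : (X:ℝ) + ρ = 2*r+2 + p := by exact_mod_cast hX
    have hY' : (Y:ℝ) + ρ = 2*r+2 := by exact_mod_cast hY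
    rw [Phi0]
    ext <;> simp only <;> linarith
  · obtain ⟨X, hX⟩ : ∃ X : ℕ, X + p = 2*r+2 + 2*ρ := ⟨2*r+2+2*ρ-p, by omega⟩
    obtain ⟨Y, hY⟩ : ∃ Y : ℕ, Y + ρ = 2*r+2 + p := ⟨2*r+2+p-ρ, by omega⟩
    refine ⟨X, Y, by omega, by omega, ?_⟩
    have hX' : (X:ℝ) + p = 2*r+2 + 2*ρ := by exact_mod_cast hX
    have hY' : (Y:ℝ) + ρ = 2*r+2 + p := by exact_mod_cast hY
    rw [Phi1]
    ext <;> simp only <;> linarith
  · obtain ⟨X, hX⟩ : ∃ X : ℕ, X + ρ = 2*r+2 := ⟨2*r+2-ρ, by omega⟩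
    obtain ⟨Y, hY⟩ : ∃ Y : ℕ, Y + p = 2*r+2 + 2*ρ := ⟨2*r+2+2*ρ-p, by omega⟩
    refine ⟨X, Y, by omega, by omega, ?_⟩
    have hX' : (X:ℝ) + ρ = 2*r+2 := by exact_mod_cast hX
    have hY' : (Y:ℝ) + p = 2*r+2 + 2*ρ := by exact_mod_cast hY
    rw [Phi2]
    ext <;> simp only <;> linarith

/-- images of plane drawings under injective affine maps -/
lemma Plane.affine {V : Type} {G : SimpleGraph V} {p : V → ℝ × ℝ} (h : Plane G p)
    {L : ℝ × ℝ → ℝ × ℝ} (hL : Function.Injective L)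
    (hA : ∀ (a b : ℝ × ℝ) (c d : ℝ), c + d = 1 → L (c • a + d • b) = c • L a + d • L b) :
    Plane G (fun v => L (p v)) := by
  have key : ∀ a b z, z ∈ segment ℝ (L a) (L b) → ∃ w ∈ segment ℝ a b, z = L w := by
    rintro a b z ⟨c, d, hc, hd, hcd, rfl⟩
    exact ⟨c • a + d • b, ⟨c, d, hc, hd, hcd, rfl⟩, (hA a b c d hcd).symm⟩
  refine ⟨hL.comp h.inj, ?_, ?_⟩
  · intro u v w huv hz
    obtain ⟨x, hx, e⟩ := key _ _ _ hz
    rw [← hL e] at hx
    exact h.avoid u v w huv hx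
  · intro u v x y huv hxy hne z hz hz'
    obtain ⟨a, ha, e⟩ := key _ _ _ hz
    obtain ⟨b, hb, e'⟩ := key _ _ _ hz'
    have hab : a = b := hL (e.symm.trans e')
    subst hab
    obtain ⟨w, w1, w2, w3⟩ := h.cross u v x y huv hxy hne a ha hb
    exact ⟨w, w1, w2, by rw [e, w3]⟩

lemma digits_inj {K a b a' b' : ℕ} (ha : a < K) (ha' : a' < K) (h : a + K*b = a' + K*b') :
    a = a' ∧ b = b' := by
  have hb : b = b' := by
    rcases lt_trichotomy b b' with hlt | h' | hlt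
    · have : K*(b+1) ≤ K*b' := Nat.mul_le_mul_left _ hlt
      rw [Nat.mul_add, Nat.mul_one] at this
      omega
    · exact h'
    · have : K*(b'+1) ≤ K*b := Nat.mul_le_mul_left _ hlt
      rw [Nat.mul_add, Nat.mul_one] at this
      omega
  subst hb
  exact ⟨by omega, rfl⟩

theorem HH_coords (t : ℕ) : ∃ (M : ℕ) (x y : BV t → ℕ), (∀ v, x v < M) ∧ (∀ v, y v < M) ∧
    Function.Injective x ∧ Function.Injective y ∧ ∀ a, Plane (HH t a) (bpos x y) := by
  choose X Y hX hY hq using fun v : BV t => qq_nat v.2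
  set K : ℕ := 6*(2*t)+7 with hK
  have hinj : ∀ u v : BV t, X u = X v → Y u = Y v → u = v := by
    intro u v e1 e2
    apply Subtype.ext
    apply qq_inj u.2 v.2
    rw [hq u, hq v, e1, e2]
  refine ⟨K + 2*K*K, fun v => X v + K * Y v, fun v => X v + 2*K * Y v, ?_, ?_, ?_, ?_, ?_⟩
  · intro v
    have h1 := hX v
    have h2 : K * Y v ≤ K * K := Nat.mul_le_mul_left _ (hY v).le
    have : 2*K*K = K*K + K*K := by ring
    simp only
    omega
  · intro v
    have h1 := hX v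
    have h2 : 2*K * Y v ≤ 2*K * K := Nat.mul_le_mul_left _ (hY v).le
    simp only
    omega
  · intro u v e
    obtain ⟨e1, e2⟩ := digits_inj (hX u) (hX v) e
    exact hinj u v e1 e2
  · intro u v e
    simp only at e
    obtain ⟨e1, e2⟩ := digits_inj (K := 2*K) (lt_of_lt_of_le (hX u) (by omega))
      (lt_of_lt_of_le (hX v) (by omega)) e
    exact hinj u v e1 e2
  · intro a
    let m : ℝ := 2*((2*t:ℕ):ℝ)+2
    have hKpos : (0:ℝ) < (K:ℝ) := by
      have : 0 < K := by omega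
      exact_mod_cast this
    have h0 := (HH_plane t a).affine (L := fun z => ((z.1 + m) + K * (z.2 + m),
      (z.1 + m) + 2*K * (z.2 + m))) (by
        intro z w h
        simp only [Prod.mk.injEq] at h
        obtain ⟨e1, e2⟩ := h
        have e3 : (K:ℝ) * z.2 = K * w.2 := by linarith
        have e4 := mul_left_cancel₀ hKpos.ne' e3
        rw [e4] at e1
        exact Prod.ext (by linarith) e4) (by
        intro z w c d hcd
        have hc : c = 1 - d := by linarith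
        subst hc
        ext <;> simp <;> ring)
    convert h0 using 1
    funext v
    unfold bpos
    rw [hq v]
    ext <;> simp only [m] <;> push_cast <;> ring

instance (t : ℕ) : Finite (BV t) := by
  refine Finite.of_injective (fun v : BV t => ((⟨v.1.h, v.2.1⟩ : Fin 2),
    (⟨v.1.j, Nat.lt_succ_of_le v.2.2.1⟩ : Fin (2*t+1)), (⟨v.1.s, v.2.2.2.1⟩ : Fin 3),
    (⟨v.1.p, Nat.lt_succ_of_le (v.2.2.2.2.trans (Nat.mul_le_mul_left 2 v.2.2.1))⟩ :
      Fin (2*(2*t)+1)))) ?_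
  rintro ⟨⟨h, j, s, p⟩, hu⟩ ⟨⟨h', j', s', p'⟩, hv⟩ e
  simp only [Prod.mk.injEq, Fin.mk.injEq] at e
  obtain ⟨rfl, rfl, rfl, rfl⟩ := e
  rfl

instance (t : ℕ) : Nonempty (BV t) := ⟨⟨⟨0, 0, 0, 0⟩, by
  refine ⟨?_, ?_, ?_, ?_⟩ <;> simp only <;> omega⟩⟩

end Pool.Agent.R32.GT
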